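import Pool.Agent.Q87.GC.Mom

/-! # The limit law -/

set_option autoImplicit false

namespace Pool.Agent.Q87.GC

open Finset MeasureTheory ProbabilityTheory Filter Topology Pool.Agent.Q145.GC

theorem int_of_min {ν : Measure ℝ} [IsProbabilityMeasure ν] {h : ℝ → ℝ} (hc : Continuous h)
    (h0 : ∀ x, 0 ≤ h x) {v : ℝ} (hv : ∀ n : ℕ, ∫ x, min (h x) n ∂ν ≤ v) :
    Integrable h ν ∧ ∫ x, h x ∂ν ≤ v := by
  have hv0 : 0 ≤ v := by
    have h1 := hv 0
    have h2 : ∀ x, min (h x) ((0 : ℕ) : ℝ) = 0 := fun x => by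
      rw [Nat.cast_zero]
      exact min_eq_right (h0 x)
    simp_rw [h2] at h1
    simpa using h1
  have hm : ∀ n : ℕ, Continuous (fun x => min (h x) (n : ℝ)) := fun n => hc.min continuous_const
  have hi : ∀ n : ℕ, Integrable (fun x => min (h x) (n : ℝ)) ν := fun n =>
    Integrable.mono' (integrable_const (n : ℝ)) (hm n).aestronglyMeasurable
      (Eventually.of_forall fun x => by
        rw [Real.norm_eq_abs, abs_of_nonneg (le_min (h0 x) n.cast_nonneg)]
        exact min_le_right _ _)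
  have h1 : ∀ n : ℕ, ∫⁻ x, ENNReal.ofReal (min (h x) (n : ℝ)) ∂ν ≤ ENNReal.ofReal v := by
    intro n
    rw [← ofReal_integral_eq_lintegral_ofReal (hi n)
      (Eventually.of_forall fun x => le_min (h0 x) n.cast_nonneg)]
    exact ENNReal.ofReal_le_ofReal (hv n)
  have h2 : Tendsto (fun n : ℕ => ∫⁻ x, ENNReal.ofReal (min (h x) (n : ℝ)) ∂ν) atTop
      (𝓝 (∫⁻ x, ENNReal.ofReal (h x) ∂ν)) := by
    refine lintegral_tendsto_of_tendsto_of_monotone
      (fun n => (hm n).measurable.ennreal_ofReal.aemeasurable)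
      (Eventually.of_forall fun x => ?_) (Eventually.of_forall fun x => ?_)
    · intro a b hab
      exact ENNReal.ofReal_le_ofReal (min_le_min_left _ (Nat.cast_le.2 hab))
    · refine tendsto_atTop_of_eventually_const (i₀ := ⌈h x⌉₊) fun n hn => ?_
      rw [min_eq_left]
      exact (Nat.le_ceil _).trans (Nat.cast_le.2 hn)
  have h3 : ∫⁻ x, ENNReal.ofReal (h x) ∂ν ≤ ENNReal.ofReal v := le_of_tendsto' h2 h1
  have h4 : Integrable h ν := by
    refine ⟨hc.aestronglyMeasurable, ?_⟩
    rw [hasFiniteIntegral_iff_ofReal (Eventually.of_forall h0)]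
    exact h3.trans_lt ENNReal.ofReal_lt_top
  refine ⟨h4, ?_⟩
  rw [← ofReal_integral_eq_lintegral_ofReal h4 (Eventually.of_forall h0)] at h3
  exact (ENNReal.ofReal_le_ofReal_iff hv0).1 h3

/-- the truncation of the identity -/
noncomputable def tr (K x : ℝ) : ℝ := max (-K) (min x K)

theorem continuous_tr (K : ℝ) : Continuous (tr K) :=
  continuous_const.max (continuous_id.min continuous_const)

theorem abs_tr_le {K : ℝ} (hK : 0 < K) (x : ℝ) : |tr K x| ≤ K := by
  unfold tr
  rw [abs_le]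
  exact ⟨le_max_left _ _, max_le (by linarith) (min_le_right _ _)⟩

theorem tr_err {K : ℝ} (hK : 0 < K) (x : ℝ) : |x - tr K x| ≤ x ^ 2 / K := by
  unfold tr
  rw [le_div_iff₀ hK]
  rcases le_total x K with h | h
  · rw [min_eq_left h]
    rcases le_total (-K) x with h' | h'
    · rw [max_eq_right h', sub_self, abs_zero, zero_mul]
      positivity
    · rw [max_eq_left h', abs_of_nonpos (by linarith)]
      nlinarith
  · rw [min_eq_right h, max_eq_right (by linarith), abs_of_nonneg (by linarith)]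
    nlinarith

theorem int_tr_err {ν : Measure ℝ} [IsProbabilityMeasure ν] {C : ℝ}
    (hi1 : Integrable (fun x => x) ν)
    (hi : Integrable (fun x => x ^ 2) ν) (hC : ∫ x, x ^ 2 ∂ν ≤ C) {K : ℝ} (hK : 0 < K) :
    |∫ x, x ∂ν - ∫ x, tr K x ∂ν| ≤ C / K := by
  have h1 : Integrable (fun x => tr K x) ν :=
    Integrable.mono' (integrable_const K) (continuous_tr K).aestronglyMeasurable
      (Eventually.of_forall fun x => abs_tr_le hK x)
  rw [← integral_sub hi1 h1]
  have h2 : |∫ x, (x - tr K x) ∂ν| ≤ ∫ x, x ^ 2 / K ∂ν := by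
    refine (abs_integral_le_integral_abs).trans ?_
    exact integral_mono (hi1.sub h1).abs (hi.div_const K) fun x => tr_err hK x
  refine h2.trans ?_
  rw [integral_div]
  exact div_le_div_of_nonneg_right hC hK.le

theorem lim (h1 : S_Psd) (h2 : S_Exp) (h3 : S_Two) (h4 : S_Bdd) : S_Lim := by
  intro ρ hρ
  obtain ⟨C, hC⟩ := h4 ρ hρ
  set V : ℕ → ℝ := fun w => vv ρ (primorial w) with hVdef
  have hmono : Monotone V := fun w w' hw => (h3 ρ hρ w w' hw).1
  have hbdd : BddAbove (Set.range V) := ⟨C, by rintro _ ⟨w, rfl⟩; exact hC w⟩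
  set v : ℝ := ⨆ w, V w with hv
  have hVv : Tendsto V atTop (𝓝 v) := tendsto_atTop_ciSup hmono hbdd
  have hVle : ∀ w, V w ≤ v := fun w => le_ciSup hbdd w
  set ms : ℕ → ProbabilityMeasure ℝ := fun w => ⟨chaos ρ (primorial w), inferInstance⟩ with hms
  have hmsc : ∀ w, (ms w : Measure ℝ) = chaos ρ (primorial w) := fun w => rfl
  have hsq : ∀ w, Integrable (fun x => x ^ 2) (ms w : Measure ℝ) ∧
      ∫ x, x ^ 2 ∂(ms w : Measure ℝ) = V w := fun w => chaos_sq h1 h2 hρ (primorial w)
  have hmean : ∀ w, Integrable (fun x => x) (ms w : Measure ℝ) ∧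
      ∫ x, x ∂(ms w : Measure ℝ) = 1 := fun w => chaos_mean h1 h2 hρ (primorial w)
  have hV0 : ∀ w, 0 ≤ V w := fun w => by
    rw [← (hsq w).2]
    exact integral_nonneg fun x => sq_nonneg x
  have hv0 : 0 ≤ v := (hV0 0).trans (hVle 0)
  -- tightness
  have tight : IsTightMeasureSet {((m : ProbabilityMeasure ℝ) : Measure ℝ) | m ∈ Set.range ms} := by
    rw [isTightMeasureSet_iff_exists_isCompact_measure_compl_le]
    intro ε hε
    by_cases hεt : ε = ⊤
    · refine ⟨∅, isCompact_empty, fun m _ => ?_⟩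
      rw [hεt]
      exact le_top
    have hε' : 0 < ε.toReal := ENNReal.toReal_pos hε.ne' hεt
    set r : ℝ := √(v / ε.toReal) + 1 with hr
    have hr1 : 1 ≤ r := by
      rw [hr]
      linarith [Real.sqrt_nonneg (v / ε.toReal)]
    refine ⟨Set.Icc (-r) r, isCompact_Icc, ?_⟩
    rintro _ ⟨m, ⟨w, rfl⟩, rfl⟩
    have k1 := mul_meas_ge_le_integral_of_nonneg (μ := (ms w : Measure ℝ)) (f := fun x => x ^ 2)
      (Eventually.of_forall fun x => sq_nonneg x) (hsq w).1 (r ^ 2)
    rw [(hsq w).2] at k1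
    have k2 : (ms w : Measure ℝ).real {x | r ^ 2 ≤ x ^ 2} ≤ ε.toReal := by
      have k3 : r ^ 2 * (ms w : Measure ℝ).real {x | r ^ 2 ≤ x ^ 2} ≤ v := k1.trans (hVle w)
      have k4 : v ≤ r ^ 2 * ε.toReal := by
        have k5 : v / ε.toReal ≤ r ^ 2 := by
          have k6 : √(v / ε.toReal) ≤ r := by rw [hr]; linarith
          calc v / ε.toReal = √(v / ε.toReal) ^ 2 := (Real.sq_sqrt (by positivity)).symm
            _ ≤ r ^ 2 := pow_le_pow_left₀ (Real.sqrt_nonneg _) k6 2
        rwa [div_le_iff₀ hε'] at k5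
      have k7 : (0 : ℝ) < r ^ 2 := by positivity
      exact le_of_mul_le_mul_left (k3.trans k4) k7
    have k8 : (ms w : Measure ℝ) (Set.Icc (-r) r)ᶜ ≤ (ms w : Measure ℝ) {x | r ^ 2 ≤ x ^ 2} := by
      refine measure_mono fun x hx => ?_
      simp only [Set.mem_compl_iff, Set.mem_Icc, not_and_or, not_le] at hx
      change r ^ 2 ≤ x ^ 2
      rcases hx with hx | hx <;> nlinarith
    refine k8.trans ?_
    rw [← ENNReal.ofReal_toReal hεt, ← ofReal_measureReal]
    exact ENNReal.ofReal_le_ofReal k2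
  -- a limit point
  have hcomp : IsCompact (closure (Set.range ms)) := isCompact_closure_of_isTightMeasureSet tight
  obtain ⟨m, -, hm⟩ := hcomp.ultrafilter_le_nhds ((Ultrafilter.of (atTop : Filter ℕ)).map ms)
    (.trans (by simp) (monotone_principal subset_closure))
  have hm' : Tendsto ms (Ultrafilter.of (atTop : Filter ℕ)) (𝓝 m) := hm
  have hUle : (Ultrafilter.of (atTop : Filter ℕ) : Filter ℕ) ≤ atTop := Ultrafilter.of_le _
  have hconv : Tendsto ms atTop (𝓝 m) := by
    refine tendsto_iff_forall_lipschitz_integral_tendsto.2 fun f hb hl => ?_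
    obtain ⟨L, hL⟩ := hl
    have hfL : ∀ x y, |f x - f y| ≤ (L : ℝ) * |x - y| := fun x y => by
      have := hL.dist_le_mul x y
      rwa [Real.dist_eq, Real.dist_eq] at this
    have hcs : CauchySeq (fun w => ∫ x, f x ∂(ms w : Measure ℝ)) := by
      refine cauchySeq_of_le_tendsto_0' (fun w => (L : ℝ) * √(v - V w)) (fun n k hnk => ?_) ?_
      · rw [dist_comm, Real.dist_eq]
        refine ((h3 ρ hρ n k hnk).2 f L hfL).trans ?_
        refine mul_le_mul_of_nonneg_left (Real.sqrt_le_sqrt ?_) L.coe_nonneg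
        exact sub_le_sub_right (hVle k) _
      · have k1 : Tendsto (fun w => (L : ℝ) * √(v - V w)) atTop (𝓝 ((L : ℝ) * √(v - v))) :=
          ((hVv.const_sub v).sqrt).const_mul _
        rwa [sub_self, Real.sqrt_zero, mul_zero] at k1
    obtain ⟨l, hl⟩ := cauchySeq_tendsto_of_complete hcs
    have hU : Tendsto (fun w => ∫ x, f x ∂(ms w : Measure ℝ)) (Ultrafilter.of (atTop : Filter ℕ))
        (𝓝 (∫ x, f x ∂(m : Measure ℝ))) :=
      ProbabilityMeasure.tendsto_iff_forall_integral_tendsto.1 hm' ⟨⟨f, hL.continuous⟩, hb⟩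
    rw [tendsto_nhds_unique hU (hl.mono_left hUle)]
    exact hl
  have hbc : ∀ f : ℝ → ℝ, Continuous f → (∃ C, ∀ x, |f x| ≤ C) →
      Tendsto (fun w => ∫ x, f x ∂(ms w : Measure ℝ)) atTop (𝓝 (∫ x, f x ∂(m : Measure ℝ))) := by
    intro f hf ⟨B, hB⟩
    have := ProbabilityMeasure.tendsto_iff_forall_integral_tendsto.1 hconv
      (BoundedContinuousFunction.ofNormedAddCommGroup f hf B hB)
    exact this
  -- truncated squares
  have hqc : ∀ n : ℕ, Continuous (fun x : ℝ => min (x ^ 2) (n : ℝ)) := fun n =>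
    (continuous_pow 2).min continuous_const
  have hqb : ∀ n : ℕ, ∀ x : ℝ, |min (x ^ 2) (n : ℝ)| ≤ n := fun n x => by
    rw [abs_of_nonneg (le_min (sq_nonneg x) n.cast_nonneg)]
    exact min_le_right _ _
  have hqi : ∀ (n : ℕ) (ν : Measure ℝ) [IsProbabilityMeasure ν],
      Integrable (fun x : ℝ => min (x ^ 2) (n : ℝ)) ν := fun n ν _ =>
    Integrable.mono' (integrable_const (n : ℝ)) (hqc n).aestronglyMeasurable
      (Eventually.of_forall fun x => hqb n x)
  obtain ⟨s1, s2⟩ := int_of_min (ν := (m : Measure ℝ)) (h := fun x => x ^ 2) (continuous_pow 2)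
    (fun x => sq_nonneg x) (v := v) (fun n => by
      refine le_of_tendsto' (hbc _ (hqc n) ⟨n, hqb n⟩) fun w => ?_
      refine le_trans ?_ (hVle w)
      rw [← (hsq w).2]
      exact integral_mono (hqi n _) (hsq w).1 fun x => min_le_left _ _)
  have s3 : v ≤ ∫ x, x ^ 2 ∂(m : Measure ℝ) := by
    refine le_of_forall_pos_le_add fun ε hε => ?_
    obtain ⟨t, ht, ht'⟩ : ∃ t : ℝ, 0 < t ∧ t * (v + v) ≤ ε / 4 := by
      refine ⟨ε / (8 * (v + 1)), by positivity, ?_⟩
      rw [div_mul_eq_mul_div, div_le_iff₀ (by positivity)]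
      nlinarith
    obtain ⟨w, hw⟩ : ∃ w, (v - V w) / (2 * t) ≤ ε / 4 := by
      have k1 : Tendsto (fun w => (v - V w) / (2 * t)) atTop (𝓝 ((v - v) / (2 * t))) :=
        (hVv.const_sub v).div_const _
      rw [sub_self, zero_div] at k1
      obtain ⟨w, hw⟩ := (k1.eventually (gt_mem_nhds (show (0 : ℝ) < ε / 4 by positivity))).exists
      exact ⟨w, hw.le⟩
    obtain ⟨n, hn⟩ : ∃ n : ℕ, ∫ x, (x ^ 2 - min (x ^ 2) (n : ℝ)) ∂(ms w : Measure ℝ) ≤ ε / 4 := by
      have k1 : Tendsto (fun n : ℕ => ∫ x, (x ^ 2 - min (x ^ 2) (n : ℝ)) ∂(ms w : Measure ℝ)) atTop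
          (𝓝 (∫ _x, (0 : ℝ) ∂(ms w : Measure ℝ))) := by
        refine tendsto_integral_of_dominated_convergence (fun x => x ^ 2)
          (fun n => ((continuous_pow 2).sub (hqc n)).aestronglyMeasurable) (hsq w).1
          (fun n => Eventually.of_forall fun x => ?_) (Eventually.of_forall fun x => ?_)
        · rw [Real.norm_eq_abs, abs_of_nonneg (sub_nonneg.2 (min_le_left _ _))]
          linarith [le_min (sq_nonneg x) (Nat.cast_nonneg (α := ℝ) n)]
        · refine tendsto_atTop_of_eventually_const (i₀ := ⌈x ^ 2⌉₊) fun n hn => ?_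
          rw [min_eq_left, sub_self]
          exact (Nat.le_ceil _).trans (Nat.cast_le.2 hn)
      rw [integral_zero] at k1
      obtain ⟨n, hn⟩ := (k1.eventually (gt_mem_nhds (show (0 : ℝ) < ε / 4 by positivity))).exists
      exact ⟨n, hn.le⟩
    have k2 : ∀ k, w ≤ k → V k - 3 * (ε / 4) ≤ ∫ x, min (x ^ 2) (n : ℝ) ∂(ms k : Measure ℝ) := by
      intro k hk
      have k3 := two_quad h1 h2 hρ hk (fun x => x ^ 2 - min (x ^ 2) (n : ℝ))
        ((continuous_pow 2).sub (hqc n)) (fun x y => by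
          have j1 : |x ^ 2 - y ^ 2| ≤ |x - y| * (|x| + |y|) := by
            rw [show x ^ 2 - y ^ 2 = (x - y) * (x + y) by ring, abs_mul]
            exact mul_le_mul_of_nonneg_left (abs_add_le x y) (abs_nonneg _)
          refine le_trans ?_ j1
          rcases le_total (x ^ 2) (n : ℝ) with a | a <;> rcases le_total (y ^ 2) (n : ℝ) with b | b
          · rw [min_eq_left a, min_eq_left b]
            simp
          · rw [min_eq_left a, min_eq_right b, sub_self, zero_sub, abs_neg,
              abs_of_nonneg (by linarith), abs_of_nonpos (by linarith)]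
            linarith
          · rw [min_eq_right a, min_eq_left b, sub_self, sub_zero,
              abs_of_nonneg (by linarith), abs_of_nonneg (by linarith)]
            linarith
          · rw [min_eq_right a, min_eq_right b]
            refine le_of_eq ?_
            congr 1
            ring) ht
      have k4 := (abs_le.1 k3).2
      rw [← hmsc, ← hmsc] at k4
      have k5 : ∫ x, (x ^ 2 - min (x ^ 2) (n : ℝ)) ∂(ms k : Measure ℝ) =
          V k - ∫ x, min (x ^ 2) (n : ℝ) ∂(ms k : Measure ℝ) := by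
        rw [integral_sub (hsq k).1 (hqi n _), (hsq k).2]
      rw [k5] at k4
      have k6 : (V k - V w) / (2 * t) ≤ ε / 4 :=
        (div_le_div_of_nonneg_right (sub_le_sub_right (hVle k) _) (by positivity)).trans hw
      have k7 : t * (V w + V k) ≤ ε / 4 :=
        (mul_le_mul_of_nonneg_left (add_le_add (hVle w) (hVle k)) ht.le).trans ht'
      have k8 : (vv ρ (primorial k) - vv ρ (primorial w)) / (2 * t) = (V k - V w) / (2 * t) := rfl
      have k9 : t * (vv ρ (primorial w) + vv ρ (primorial k)) = t * (V w + V k) := rfl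
      linarith
    have k10 : v - 3 * (ε / 4) ≤ ∫ x, min (x ^ 2) (n : ℝ) ∂(m : Measure ℝ) := by
      refine le_of_tendsto_of_tendsto (hVv.sub_const (3 * (ε / 4))) (hbc _ (hqc n) ⟨n, hqb n⟩) ?_
      filter_upwards [eventually_ge_atTop w] with k hk
      exact k2 k hk
    have k11 : ∫ x, min (x ^ 2) (n : ℝ) ∂(m : Measure ℝ) ≤ ∫ x, x ^ 2 ∂(m : Measure ℝ) :=
      integral_mono (hqi n _) s1 fun x => min_le_left _ _
    linarith
  have s4 : ∫ x, x ^ 2 ∂(m : Measure ℝ) = v := le_antisymm s2 s3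
  have s5 : Integrable (fun x => x) (m : Measure ℝ) := by
    refine Integrable.mono' ((integrable_const (1 : ℝ)).add s1) continuous_id.aestronglyMeasurable
      (Eventually.of_forall fun x => ?_)
    rw [Real.norm_eq_abs]
    simp only [Pi.add_apply]
    have := sq_nonneg (|x| - 1)
    nlinarith [sq_abs x, abs_nonneg x]
  have s6 : ∫ x, x ∂(m : Measure ℝ) = 1 := by
    by_contra hne
    have hδ : 0 < |∫ x, x ∂(m : Measure ℝ) - 1| := abs_pos.2 (sub_ne_zero.2 hne)
    set δ := |∫ x, x ∂(m : Measure ℝ) - 1| with hδdef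
    set K : ℝ := 4 * (v + 1) / δ with hK
    have hK0 : 0 < K := by positivity
    have k1 := int_tr_err (ν := (m : Measure ℝ)) s5 s1 s2 hK0
    have k2 : |1 - ∫ x, tr K x ∂(m : Measure ℝ)| ≤ v / K := by
      have k3 : Tendsto (fun w => |1 - ∫ x, tr K x ∂(ms w : Measure ℝ)|) atTop
          (𝓝 |1 - ∫ x, tr K x ∂(m : Measure ℝ)|) :=
        ((hbc _ (continuous_tr K) ⟨K, abs_tr_le hK0⟩).const_sub 1).abs
      refine le_of_tendsto' k3 fun w => ?_
      have k4 := int_tr_err (ν := (ms w : Measure ℝ)) (hmean w).1 (hsq w).1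
        ((hsq w).2.le.trans (hVle w)) hK0
      rwa [(hmean w).2] at k4
    have k5 : δ ≤ 2 * (v / K) := by
      have k6 : ∫ x, x ∂(m : Measure ℝ) - 1 =
          (∫ x, x ∂(m : Measure ℝ) - ∫ x, tr K x ∂(m : Measure ℝ)) -
            (1 - ∫ x, tr K x ∂(m : Measure ℝ)) := by ring
      rw [hδdef, k6]
      refine (abs_sub _ _).trans ?_
      linarith
    have k7 : 2 * (v / K) = δ * v / (2 * (v + 1)) := by
      rw [hK]
      field_simp
      ring
    rw [k7, le_div_iff₀ (by positivity)] at k5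
    nlinarith
  have s7 : (m : Measure ℝ) (Set.Iio 0) = 0 := by
    have k1 := ProbabilityMeasure.le_liminf_measure_open_of_tendsto hconv isOpen_Iio (G := Set.Iio 0)
    have k2 : ∀ w, (ms w : Measure ℝ) (Set.Iio 0) = 0 := fun w => chaos_neg ρ (primorial w)
    simp_rw [k2] at k1
    simpa using k1
  refine ⟨m, v, inferInstance, s7, s5, s6, s1, s4, fun hρ0 => ?_, hVv, hbc⟩
  have k1 : V 2 = Real.cosh ρ := vv_two (primorial 2) primorial_two ρ
  have k2 : 1 < Real.cosh ρ := Real.one_lt_cosh.2 hρ0.ne'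
  rw [← k1] at k2
  exact k2.trans_le (hVle 2)

end Pool.Agent.Q87.GC
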