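import Pool.Agent.Q145.GC.Spec3

/-! # Asymptotics of the parameters -/

set_option autoImplicit false

namespace Pool.Agent.Q87.GC

open Finset Filter Topology Pool.Agent.Q145.GC

theorem th_nonneg (Y n : ℕ) : 0 ≤ th Y n := by
  unfold th
  positivity

theorem th_le_one (Y n : ℕ) : th Y n ≤ 1 := by
  unfold th
  apply div_le_one_of_le₀ _ (Nat.cast_nonneg _)
  have := card_le_card (filter_subset (fun s => (n + s).Prime) (Icc 1 Y))
  rw [Nat.card_Icc, Nat.add_sub_cancel] at this
  exact_mod_cast this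

theorem one_sub_pow_le {x : ℝ} (h1 : x ≤ 1) (k : ℕ) : (1 - x) ^ k ≤ Real.exp (-(k * x)) := by
  calc (1 - x) ^ k ≤ (Real.exp (-x)) ^ k :=
        pow_le_pow_left₀ (by linarith) (Real.one_sub_le_exp_neg x) k
    _ = _ := by
      rw [← Real.exp_nat_mul]
      ring_nf

theorem le_one_sub_pow {x : ℝ} (h1 : x ≤ 1 / 2) (k : ℕ) :
    Real.exp (-(k * x) - 2 * k * x ^ 2) ≤ (1 - x) ^ k := by
  have hx : 0 < 1 - x := by linarith
  have h2 : -x - 2 * x ^ 2 ≤ Real.log (1 - x) := by
    have h3 := Real.one_sub_inv_le_log_of_pos hx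
    have h4 : -x - 2 * x ^ 2 ≤ 1 - (1 - x)⁻¹ := by
      have h5 : 1 - (1 - x)⁻¹ - (-x - 2 * x ^ 2) = x ^ 2 * (1 - 2 * x) / (1 - x) := by
        field_simp
        ring
      have h6 : 0 ≤ x ^ 2 * (1 - 2 * x) / (1 - x) := by
        apply div_nonneg (mul_nonneg (sq_nonneg _) (by linarith)) hx.le
      linarith
    linarith
  calc Real.exp (-(k * x) - 2 * k * x ^ 2) = (Real.exp (-x - 2 * x ^ 2)) ^ k := by
        rw [← Real.exp_nat_mul]
        ring_nf
    _ ≤ (1 - x) ^ k := by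
        refine pow_le_pow_left₀ (Real.exp_pos _).le ?_ k
        calc Real.exp (-x - 2 * x ^ 2) ≤ Real.exp (Real.log (1 - x)) := Real.exp_le_exp.2 h2
          _ = 1 - x := Real.exp_log hx

theorem sum_Icc_range (f : ℕ → ℝ) (Y : ℕ) : ∑ s ∈ Icc 1 Y, f s = ∑ s ∈ range Y, f (s + 1) := by
  rw [Finset.range_eq_Ico, Finset.sum_Ico_add' f 0 Y 1]
  rfl

theorem th_step (Y n : ℕ) : |th Y (n + 1) - th Y n| ≤ 1 / Y := by
  set q : ℕ → ℝ := fun j => if j.Prime then 1 else 0 with hq
  have hq0 : ∀ j, 0 ≤ q j ∧ q j ≤ 1 := fun j => by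
    rw [hq]
    simp only
    split_ifs <;> norm_num
  have h1 : ∀ m : ℕ, (((Icc 1 Y).filter (fun s => (m + s).Prime)).card : ℝ) =
      ∑ s ∈ range Y, q (m + (s + 1)) := by
    intro m
    rw [card_filter, Nat.cast_sum, ← sum_Icc_range (fun s => q (m + s)) Y]
    refine Finset.sum_congr rfl fun s _ => ?_
    rw [hq]
    simp only
    split_ifs <;> simp
  have h2 := Finset.sum_range_succ (fun s => q (n + (s + 1))) Y
  have h3 := Finset.sum_range_succ' (fun s => q (n + (s + 1))) Y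
  have h4 : ∑ s ∈ range Y, q (n + 1 + (s + 1)) = ∑ s ∈ range Y, q (n + (s + 1 + 1)) :=
    Finset.sum_congr rfl fun s _ => by
      congr 1
      ring
  unfold th
  rw [h1, h1, h4, ← sub_div, abs_div, Nat.abs_cast]
  apply div_le_div_of_nonneg_right _ (Nat.cast_nonneg _)
  have h5 := hq0 (n + (Y + 1))
  have h6 := hq0 (n + (0 + 1))
  rw [h2] at h3
  rw [abs_le]
  constructor <;> linarith [h5.1, h5.2, h6.1, h6.2]

theorem par_aux (h : S_Th) {lam : ℝ} (hlam : 0 < lam) {X Y k : ℕ → ℕ}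
    (top : Tendsto X atTop atTop) (le : ∀ i, X i ≤ Y i)
    (mn : Tendsto (fun i => mean (X i) (Y i) (k i)) atTop (𝓝 lam)) :
    ∃ M : ℝ, 0 ≤ M ∧ ∀ᶠ i in atTop, 1 ≤ X i ∧ 4 ≤ Real.log (Y i) ∧
      (k i : ℝ) ≤ 4 * Real.log (Y i) ^ 2 ∧
      |Real.log (X i) - k i / Real.log (Y i)| ≤ M ∧
      ∀ n ∈ Icc 1 (Y i), th (Y i) n ≤ 1 / 2 ∧
        Real.exp (-(k i * th (Y i) n)) ≤ Real.exp M / X i ∧
        (1 - th (Y i) n) ^ (k i) ≤ Real.exp M / X i := by
  obtain ⟨C, Y₀, hth⟩ := h
  set D : ℝ := max C 0 with hD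
  have hD0 : 0 ≤ D := le_max_right _ _
  have hCD : C ≤ D := le_max_left _ _
  have topY : Tendsto Y atTop atTop := tendsto_atTop_mono le top
  have topL : Tendsto (fun i => Real.log (Y i)) atTop atTop :=
    Real.tendsto_log_atTop.comp (tendsto_natCast_atTop_atTop.comp topY)
  set M : ℝ := |Real.log (2 * lam)| + |Real.log (lam / 2)| + 8 * D + 32 with hM
  have hM0 : 0 ≤ M := by positivity
  refine ⟨M, hM0, ?_⟩
  have m1 : ∀ᶠ i in atTop, lam / 2 ≤ mean (X i) (Y i) (k i) :=
    (mn.eventually (lt_mem_nhds (show lam / 2 < lam by linarith))).mono fun i hi => hi.le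
  have m2 : ∀ᶠ i in atTop, mean (X i) (Y i) (k i) ≤ 2 * lam :=
    (mn.eventually (gt_mem_nhds (show lam < 2 * lam by linarith))).mono fun i hi => hi.le
  filter_upwards [m1, m2, top.eventually_ge_atTop 1, topY.eventually_ge_atTop Y₀,
    topL.eventually_ge_atTop 4, topL.eventually_ge_atTop (2 * D),
    topL.eventually_ge_atTop |Real.log (lam / 2)|] with i a1 a2 a3 a4 a5 a6 a7
  set L : ℝ := Real.log (Y i) with hL
  have hL0 : 0 < L := by linarith
  have hX0 : (0 : ℝ) < X i := by exact_mod_cast a3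
  have hY1 : 1 ≤ Y i := a3.trans (le i)
  have hY0 : (0 : ℝ) < Y i := by exact_mod_cast hY1
  have hlX : Real.log (X i) ≤ L := Real.log_le_log hX0 (by exact_mod_cast le i)
  -- the degrees
  have t1 : ∀ n ∈ Icc 1 (Y i), |th (Y i) n - 1 / L| ≤ D / L ^ 2 := by
    intro n hn
    rw [mem_Icc] at hn
    exact (hth (Y i) a4 n hn.1 hn.2).trans (div_le_div_of_nonneg_right hCD (by positivity))
  have hDL : D / L ^ 2 ≤ 1 / (2 * L) := by
    rw [div_le_div_iff₀ (by positivity) (by positivity)]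
    nlinarith
  have t2 : ∀ n ∈ Icc 1 (Y i), 1 / (2 * L) ≤ th (Y i) n ∧ th (Y i) n ≤ 2 / L := by
    intro n hn
    have h1 := abs_le.1 (t1 n hn)
    have h2 : 1 / L = 1 / (2 * L) + 1 / (2 * L) := by
      field_simp
      norm_num
    have h3 : 2 / L = 1 / L + 1 / (2 * L) + 1 / (2 * L) := by
      field_simp
      norm_num
    have h4 : 0 < 1 / (2 * L) := by positivity
    constructor <;> linarith [h1.1, h1.2]
  have t3 : ∀ n ∈ Icc 1 (Y i), th (Y i) n ≤ 1 / 2 := by
    intro n hn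
    refine (t2 n hn).2.trans ?_
    rw [div_le_div_iff₀ hL0 (by norm_num)]
    linarith
  have hcard : ((Icc 1 (Y i)).card : ℝ) = Y i := by
    rw [Nat.card_Icc, Nat.add_sub_cancel]
  -- mean of the powers
  have av1 : ∀ B : ℝ, (∀ n ∈ Icc 1 (Y i), (1 - th (Y i) n) ^ (k i) ≤ B) →
      mean (X i) (Y i) (k i) ≤ X i * B := by
    intro B hB
    unfold mean
    refine mul_le_mul_of_nonneg_left ?_ hX0.le
    rw [div_le_iff₀ hY0]
    have := Finset.sum_le_card_nsmul _ _ _ hB
    rw [nsmul_eq_mul, hcard] at this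
    linarith
  have av2 : ∀ B : ℝ, (∀ n ∈ Icc 1 (Y i), B ≤ (1 - th (Y i) n) ^ (k i)) →
      X i * B ≤ mean (X i) (Y i) (k i) := by
    intro B hB
    unfold mean
    refine mul_le_mul_of_nonneg_left ?_ hX0.le
    rw [le_div_iff₀ hY0]
    have := Finset.card_nsmul_le_sum _ _ _ hB
    rw [nsmul_eq_mul, hcard] at this
    linarith
  -- the size of k
  have hk : (k i : ℝ) ≤ 4 * L ^ 2 := by
    have h1 : mean (X i) (Y i) (k i) ≤ X i * Real.exp (-(k i / (2 * L))) := by
      refine av1 _ fun n hn => (one_sub_pow_le (th_le_one _ _) _).trans (Real.exp_le_exp.2 ?_)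
      have := mul_le_mul_of_nonneg_left (t2 n hn).1 (Nat.cast_nonneg (α := ℝ) (k i))
      rw [mul_one_div] at this
      linarith
    have h2 := Real.log_le_log (by positivity) (a1.trans h1)
    rw [Real.log_mul hX0.ne' (Real.exp_pos _).ne', Real.log_exp] at h2
    have h3 := neg_abs_le (Real.log (lam / 2))
    have h4 : (k i : ℝ) / (2 * L) ≤ 2 * L := by linarith
    rw [div_le_iff₀ (by positivity)] at h4
    nlinarith
  have hkL : 0 ≤ (k i : ℝ) := Nat.cast_nonneg _
  have u1 : ∀ n ∈ Icc 1 (Y i), |k i * th (Y i) n - k i / L| ≤ 4 * D := by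
    intro n hn
    rw [show (k i : ℝ) * th (Y i) n - k i / L = k i * (th (Y i) n - 1 / L) by ring, abs_mul,
      abs_of_nonneg hkL]
    calc (k i : ℝ) * |th (Y i) n - 1 / L| ≤ 4 * L ^ 2 * (D / L ^ 2) :=
          mul_le_mul hk (t1 n hn) (abs_nonneg _) (by positivity)
      _ = 4 * D := by field_simp
  have u2 : ∀ n ∈ Icc 1 (Y i), 2 * k i * th (Y i) n ^ 2 ≤ 32 := by
    intro n hn
    have h1 : th (Y i) n ^ 2 ≤ (2 / L) ^ 2 := pow_le_pow_left₀ (th_nonneg _ _) (t2 n hn).2 2
    calc 2 * (k i : ℝ) * th (Y i) n ^ 2 ≤ 2 * (4 * L ^ 2) * (2 / L) ^ 2 :=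
          mul_le_mul (by linarith) h1 (sq_nonneg _) (by positivity)
      _ = 32 := by
        field_simp
        norm_num
  have u3 : ∀ n ∈ Icc 1 (Y i), Real.exp (-(k i * th (Y i) n)) ≤ Real.exp (-(k i / L) + 4 * D) := by
    intro n hn
    apply Real.exp_le_exp.2
    have := abs_le.1 (u1 n hn)
    linarith [this.1]
  have u4 : ∀ n ∈ Icc 1 (Y i), (1 - th (Y i) n) ^ (k i) ≤ Real.exp (-(k i / L) + 4 * D) :=
    fun n hn => (one_sub_pow_le (th_le_one _ _) _).trans (u3 n hn)
  have u5 : ∀ n ∈ Icc 1 (Y i), Real.exp (-(k i / L) - 4 * D - 32) ≤ (1 - th (Y i) n) ^ (k i) := by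
    intro n hn
    refine le_trans (Real.exp_le_exp.2 ?_) (le_one_sub_pow (t3 n hn) (k i))
    have := abs_le.1 (u1 n hn)
    linarith [this.2, u2 n hn]
  have v1 : Real.log (X i) - k i / L ≤ Real.log (2 * lam) + 4 * D + 32 := by
    have h1 := (av2 _ u5).trans a2
    have h2 := Real.log_le_log (by positivity) h1
    rw [Real.log_mul hX0.ne' (Real.exp_pos _).ne', Real.log_exp] at h2
    linarith
  have v2 : Real.log (lam / 2) - 4 * D ≤ Real.log (X i) - k i / L := by
    have h1 := a1.trans (av1 _ u4)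
    have h2 := Real.log_le_log (by positivity) h1
    rw [Real.log_mul hX0.ne' (Real.exp_pos _).ne', Real.log_exp] at h2
    linarith
  have w1 := le_abs_self (Real.log (2 * lam))
  have w2 := neg_abs_le (Real.log (lam / 2))
  have w3 := abs_nonneg (Real.log (2 * lam))
  have w4 := abs_nonneg (Real.log (lam / 2))
  have w5 : Real.exp (-(k i / L) + 4 * D) ≤ Real.exp M / X i := by
    rw [le_div_iff₀ hX0]
    calc Real.exp (-(k i / L) + 4 * D) * X i =
        Real.exp (-(k i / L) + 4 * D) * Real.exp (Real.log (X i)) := by rw [Real.exp_log hX0]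
      _ = Real.exp (-(k i / L) + 4 * D + Real.log (X i)) := (Real.exp_add _ _).symm
      _ ≤ Real.exp M := Real.exp_le_exp.2 (by linarith)
  refine ⟨a3, a5, hk, ?_, fun n hn => ⟨t3 n hn, (u3 n hn).trans w5, (u4 n hn).trans w5⟩⟩
  rw [abs_le]
  constructor <;> linarith

theorem par (h : S_Th) : S_Par := by
  intro ρ lam X Y k hρ hlam hP
  obtain ⟨M, hM0, hM⟩ := par_aux h hlam hP.top hP.le hP.mn
  have topY : Tendsto Y atTop atTop := tendsto_atTop_mono hP.le hP.top
  have topL : Tendsto (fun i => Real.log (Y i)) atTop atTop :=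
    Real.tendsto_log_atTop.comp (tendsto_natCast_atTop_atTop.comp topY)
  have topX : Tendsto (fun i => Real.log (X i)) atTop atTop :=
    Real.tendsto_log_atTop.comp (tendsto_natCast_atTop_atTop.comp hP.top)
  refine ⟨?_, ?_, Real.exp M, Real.one_le_exp hM0, ?_⟩
  · have h1 : Tendsto (fun i => Real.log (X i) / Real.log (Y i) -
        (k i : ℝ) / Real.log (Y i) ^ 2) atTop (𝓝 0) := by
      rw [tendsto_zero_iff_abs_tendsto_zero]
      refine squeeze_zero' (g := fun i => M / Real.log (Y i))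
        (Eventually.of_forall fun i => abs_nonneg _) ?_ (topL.const_div_atTop M)
      filter_upwards [hM] with i hi
      have hL0 : 0 < Real.log (Y i) := by linarith [hi.2.1]
      have h2 : Real.log (X i) / Real.log (Y i) - (k i : ℝ) / Real.log (Y i) ^ 2 =
          (Real.log (X i) - k i / Real.log (Y i)) / Real.log (Y i) := by
        field_simp
      simp only [Function.comp]
      rw [h2, abs_div, abs_of_pos hL0]
      exact div_le_div_of_nonneg_right hi.2.2.2.1 hL0.le
    have h3 := hP.ratio.sub h1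
    simp only [sub_sub_cancel, sub_zero] at h3
    exact h3
  · have h1 : Tendsto (fun i => (k i : ℝ)) atTop atTop := by
      refine tendsto_atTop_mono' _ ?_ (tendsto_atTop_add_const_right _ (-M) topX)
      filter_upwards [hM, topX.eventually_ge_atTop M] with i hi hX
      have hL0 : 4 ≤ Real.log (Y i) := hi.2.1
      have h2 := (abs_le.1 hi.2.2.2.1).2
      have h3 : Real.log (X i) - M ≤ k i / Real.log (Y i) := by linarith
      have h4 : (k i : ℝ) / Real.log (Y i) ≤ k i := by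
        apply div_le_self (Nat.cast_nonneg _)
        linarith
      linarith
    exact tendsto_natCast_atTop_iff.1 h1
  · filter_upwards [hM] with i hi n hn
    exact (hi.2.2.2.2 n hn).2

/-- the sum over a class -/
noncomputable def cs {W : ℕ} (a : ℕ → ℝ) (Y : ℕ) (c : ZMod W) : ℝ :=
  ∑ n ∈ (Icc 1 Y).filter (fun n : ℕ => (n : ZMod W) = c), a n

theorem cs_step {W : ℕ} (a : ℕ → ℝ) {Y : ℕ} (hY : 1 ≤ Y) {δ m : ℝ}
    (hδ : ∀ n, 1 ≤ n → n + 1 ≤ Y → |a (n + 1) - a n| ≤ δ) (hδ0 : 0 ≤ δ)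
    (hm : ∀ n ∈ Icc 1 Y, |a n| ≤ m) (c : ZMod W) :
    |cs a Y (c + 1) - cs a Y c| ≤ Y * δ + 2 * m := by
  classical
  set f : ℕ → ℝ := fun n => if (n : ZMod W) = c then a n else 0 with hf
  set g : ℕ → ℝ := fun n => if (n : ZMod W) = c + 1 then a n else 0 with hg
  have hgf : ∀ n, 1 ≤ n → n + 1 ≤ Y → |g (n + 1) - f n| ≤ δ := by
    intro n h1 h2
    rw [hf, hg]
    simp only
    by_cases hn : (n : ZMod W) = c
    · rw [if_pos hn, if_pos (by push_cast; rw [hn])]
      exact hδ n h1 h2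
    · rw [if_neg hn, if_neg (by
        push_cast
        intro h
        exact hn (add_right_cancel h))]
      simpa using hδ0
  have h1 : ∀ Z, 1 ≤ Z → Z ≤ Y →
      |∑ n ∈ Icc 1 Z, g n - ∑ n ∈ Icc 1 Z, f n + f Z - g 1| ≤ Z * δ := by
    intro Z hZ
    induction Z, hZ using Nat.le_induction with
    | base =>
      intro _
      simp only [Icc_self, sum_singleton, sub_add_cancel, sub_self, abs_zero]
      positivity
    | succ Z hZ ih =>
      intro hZY
      rw [Finset.sum_Icc_succ_top (by omega), Finset.sum_Icc_succ_top (by omega)]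
      have h2 := ih (by omega)
      have h3 := hgf Z hZ hZY
      have h4 : ∑ n ∈ Icc 1 Z, g n + g (Z + 1) - (∑ n ∈ Icc 1 Z, f n + f (Z + 1)) + f (Z + 1) - g 1 =
          (∑ n ∈ Icc 1 Z, g n - ∑ n ∈ Icc 1 Z, f n + f Z - g 1) + (g (Z + 1) - f Z) := by ring
      rw [h4]
      refine (abs_add_le _ _).trans ?_
      push_cast
      linarith
  have h2 := h1 Y hY le_rfl
  have h3 : |f Y| ≤ m := by
    have h4 := hm Y (mem_Icc.2 ⟨hY, le_rfl⟩)
    rw [hf]
    simp only
    split_ifs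
    · exact h4
    · simpa using (abs_nonneg _).trans h4
  have h5 : |g 1| ≤ m := by
    have h4 := hm 1 (mem_Icc.2 ⟨le_rfl, hY⟩)
    rw [hg]
    simp only
    split_ifs
    · exact h4
    · simpa using (abs_nonneg _).trans h4
  unfold cs
  rw [sum_filter, sum_filter]
  rw [abs_le] at h2 h3 h5 ⊢
  constructor <;> linarith [h2.1, h2.2, h3.1, h3.2, h5.1, h5.2]

theorem cs_zero {W : ℕ} [NeZero W] {s : ZMod W → ℝ} {D : ℝ} (hD : ∀ c, |s (c + 1) - s c| ≤ D)
    (c : ZMod W) : |s c - s 0| ≤ W * D := by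
  have hD0 : 0 ≤ D := (abs_nonneg _).trans (hD 0)
  have h1 : ∀ j : ℕ, |s (j : ZMod W) - s 0| ≤ j * D := by
    intro j
    induction j with
    | zero => simp
    | succ j ih =>
      have h2 := hD (j : ZMod W)
      push_cast
      have h3 : s ((j : ZMod W) + 1) - s 0 = (s ((j : ZMod W) + 1) - s j) + (s j - s 0) := by ring
      rw [h3]
      refine (abs_add_le _ _).trans ?_
      linarith
  have h2 := h1 c.val
  rw [ZMod.natCast_zmod_val] at h2
  refine h2.trans (mul_le_mul_of_nonneg_right ?_ hD0)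
  exact_mod_cast (ZMod.val_lt c).le

theorem cs_avg {W : ℕ} [NeZero W] {s : ZMod W → ℝ} {D : ℝ} (hD : ∀ c, |s (c + 1) - s c| ≤ D)
    (c : ZMod W) : |s c - (∑ d, s d) / W| ≤ 2 * W * D := by
  have hW : (0 : ℝ) < W := by exact_mod_cast Nat.pos_of_ne_zero (NeZero.ne W)
  have h1 : s c - (∑ d, s d) / W = (∑ d : ZMod W, (s c - s d)) / W := by
    rw [Finset.sum_sub_distrib, Finset.sum_const, Finset.card_univ, ZMod.card, nsmul_eq_mul]
    field_simp
  rw [h1, abs_div, Nat.abs_cast, div_le_iff₀ hW]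
  refine (Finset.abs_sum_le_sum_abs _ _).trans ?_
  have h2 : ∀ d ∈ (univ : Finset (ZMod W)), |s c - s d| ≤ 2 * W * D := by
    intro d _
    have h3 := cs_zero hD c
    have h4 := cs_zero hD d
    rw [abs_le] at h3 h4 ⊢
    constructor <;> linarith [h3.1, h3.2, h4.1, h4.2]
  have h5 := Finset.sum_le_card_nsmul _ _ _ h2
  rw [Finset.card_univ, ZMod.card, nsmul_eq_mul] at h5
  linarith

theorem clsum (h : S_Th) : S_Cls := by
  intro W _ ρ lam X Y k hρ hlam hP c
  obtain ⟨M, hM0, hM⟩ := par_aux h hlam hP.top hP.le hP.mn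
  have hW : (0 : ℝ) < W := by exact_mod_cast Nat.pos_of_ne_zero (NeZero.ne W)
  have topY : Tendsto Y atTop atTop := tendsto_atTop_mono hP.le hP.top
  set E : ℝ := Real.exp M with hE
  have hE0 : 0 < E := Real.exp_pos _
  have hlim : Tendsto (fun i => mean (X i) (Y i) (k i) / W) atTop (𝓝 (lam / W)) :=
    hP.mn.div_const _
  have herr : Tendsto (fun i => (X i : ℝ) / Y i *
      ∑ n ∈ (Icc 1 (Y i)).filter (fun n : ℕ => (n : ZMod W) = c), (1 - th (Y i) n) ^ (k i) -
      mean (X i) (Y i) (k i) / W) atTop (𝓝 0) := by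
    rw [tendsto_zero_iff_abs_tendsto_zero]
    have hz : Tendsto (fun i => 2 * W * (E * (8 * (Real.log (Y i) ^ 2 / Y i) + 2 * (1 / (Y i : ℝ)))))
        atTop (𝓝 0) := by
      have z1 : Tendsto (fun y : ℝ => Real.log y ^ 2 / y) atTop (𝓝 0) :=
        Real.isLittleO_pow_log_id_atTop.tendsto_div_nhds_zero
      have z2 : Tendsto (fun y : ℝ => 1 / y) atTop (𝓝 0) := tendsto_const_nhds.div_atTop tendsto_id
      have z3 : Tendsto (fun i => (Y i : ℝ)) atTop atTop := tendsto_natCast_atTop_atTop.comp topY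
      have z4 := (((z1.comp z3).const_mul 8).add ((z2.comp z3).const_mul 2)).const_mul E
      have z5 := z4.const_mul (2 * (W : ℝ))
      simp only [mul_zero, add_zero] at z5
      exact z5
    refine squeeze_zero' (Eventually.of_forall fun i => abs_nonneg _) ?_ hz
    filter_upwards [hM] with i hi
    obtain ⟨a1, a2, a3, -, a4⟩ := hi
    have hX0 : (0 : ℝ) < X i := by exact_mod_cast a1
    have hY1 : 1 ≤ Y i := a1.trans (hP.le i)
    have hY0 : (0 : ℝ) < Y i := by exact_mod_cast hY1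
    set a : ℕ → ℝ := fun n => (1 - th (Y i) n) ^ (k i) with ha
    set δ : ℝ := 1 / Y i * (2 * k i * (E / X i)) with hδ
    have hδ0 : 0 ≤ δ := by positivity
    have ha0 : ∀ n, 0 ≤ a n := fun n => pow_nonneg (by linarith [th_le_one (Y i) n]) _
    have s1 : ∀ n, 1 ≤ n → n + 1 ≤ Y i → |a (n + 1) - a n| ≤ δ := by
      intro n h1 h2
      have m1 : n ∈ Icc 1 (Y i) := mem_Icc.2 ⟨h1, by omega⟩
      have m2 : n + 1 ∈ Icc 1 (Y i) := mem_Icc.2 ⟨by omega, h2⟩
      have b1 := th_nonneg (Y i) n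
      have b2 := th_nonneg (Y i) (n + 1)
      have b3 := (a4 n m1).1
      have b4 := (a4 (n + 1) m2).1
      have h3 := abs_pow_sub_pow_le (a := 1 - th (Y i) (n + 1)) (b := 1 - th (Y i) n) (n := k i)
      have h4 : |1 - th (Y i) (n + 1) - (1 - th (Y i) n)| ≤ 1 / Y i := by
        rw [show 1 - th (Y i) (n + 1) - (1 - th (Y i) n) = -(th (Y i) (n + 1) - th (Y i) n) by ring,
          abs_neg]
        exact th_step _ _
      have h5 : (k i : ℝ) * max |1 - th (Y i) (n + 1)| |1 - th (Y i) n| ^ (k i - 1) ≤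
          2 * k i * (E / X i) := by
        rcases Nat.eq_zero_or_pos (k i) with hk | hk
        · rw [hk]
          simp
        · rw [abs_of_nonneg (by linarith), abs_of_nonneg (by linarith)]
          set u := max (1 - th (Y i) (n + 1)) (1 - th (Y i) n) with hu
          have hu1 : 1 / 2 ≤ u := (by linarith : (1 : ℝ) / 2 ≤ 1 - th (Y i) n).trans (le_max_right _ _)
          have hu2 : u ^ (k i) ≤ E / X i := by
            rcases max_choice (1 - th (Y i) (n + 1)) (1 - th (Y i) n) with h6 | h6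
            · rw [hu, h6]
              exact (a4 _ m2).2.2
            · rw [hu, h6]
              exact (a4 _ m1).2.2
          have hu3 : u ^ (k i) = u ^ (k i - 1) * u := by
            rw [← pow_succ, Nat.sub_add_cancel hk]
          have hu4 : 0 ≤ u ^ (k i - 1) := pow_nonneg (by linarith) _
          have hu5 : u ^ (k i - 1) ≤ 2 * (E / X i) := by
            rw [hu3] at hu2
            nlinarith
          calc (k i : ℝ) * u ^ (k i - 1) ≤ k i * (2 * (E / X i)) :=
                mul_le_mul_of_nonneg_left hu5 (Nat.cast_nonneg _)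
            _ = _ := by ring
      refine h3.trans ?_
      rw [mul_assoc, hδ]
      exact mul_le_mul h4 h5 (by positivity) (by positivity)
    have s2 : ∀ n ∈ Icc 1 (Y i), |a n| ≤ E / X i := by
      intro n hn
      rw [abs_of_nonneg (ha0 n)]
      exact (a4 n hn).2.2
    have s3 := cs_avg (s := cs (W := W) a (Y i)) (fun c => cs_step a hY1 s1 hδ0 s2 c) c
    have s4 : ∑ d : ZMod W, cs a (Y i) d = ∑ n ∈ Icc 1 (Y i), a n := by
      unfold cs
      exact Finset.sum_fiberwise _ _ _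
    rw [s4] at s3
    have s5 : (X i : ℝ) / Y i * ∑ n ∈ (Icc 1 (Y i)).filter (fun n : ℕ => (n : ZMod W) = c),
        (1 - th (Y i) n) ^ (k i) - mean (X i) (Y i) (k i) / W =
        (X i : ℝ) / Y i * (cs a (Y i) c - (∑ n ∈ Icc 1 (Y i), a n) / W) := by
      unfold mean cs
      rw [ha]
      field_simp
    simp only [Function.comp]
    rw [s5, abs_mul, abs_of_nonneg (by positivity)]
    calc (X i : ℝ) / Y i * |cs a (Y i) c - (∑ n ∈ Icc 1 (Y i), a n) / W| ≤
          (X i : ℝ) / Y i * (2 * W * (Y i * δ + 2 * (E / X i))) :=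
          mul_le_mul_of_nonneg_left s3 (by positivity)
      _ = 2 * W * (E * (2 * (k i / Y i) + 2 * (1 / (Y i : ℝ)))) := by
          rw [hδ]
          field_simp
      _ ≤ 2 * W * (E * (8 * (Real.log (Y i) ^ 2 / Y i) + 2 * (1 / (Y i : ℝ)))) := by
          have h6 : (k i : ℝ) / Y i ≤ 4 * (Real.log (Y i) ^ 2 / Y i) := by
            rw [← mul_div_assoc]
            exact div_le_div_of_nonneg_right a3 hY0.le
          refine mul_le_mul_of_nonneg_left (mul_le_mul_of_nonneg_left ?_ hE0.le) (by positivity)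
          linarith
  have := herr.add hlim
  simp only [sub_add_cancel, zero_add] at this
  exact this

end Pool.Agent.Q87.GC
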