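import Pool.Agent.Q145.GC.Spec

/-! # The covariance matrices on two levels -/

set_option autoImplicit false

namespace Pool.Agent.Q87.GC

open Finset Filter Topology Pool.Agent.Q145.GC

/-- sums along a surjective homomorphism of finite groups -/
theorem sum_hom {G H : Type} [Group G] [Group H] [Fintype G] [Fintype H] [DecidableEq H]
    (φ : G →* H) (hφ : Function.Surjective φ) (f : H → ℝ) :
    ∑ g, f (φ g) = (Fintype.card G : ℝ) / Fintype.card H * ∑ h, f h := by
  have h1 : ∀ x : H, (univ.filter fun g => φ g = x).card = (univ.filter fun g => φ g = 1).card :=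
    fun x => MonoidHom.card_fiber_eq_of_mem_range φ (hφ x) (hφ 1)
  have h2 : (Fintype.card G : ℝ) = Fintype.card H * (univ.filter fun g => φ g = 1).card := by
    have h3 : (univ : Finset G).card = ∑ x : H, (univ.filter fun g => φ g = x).card :=
      Finset.card_eq_sum_card_fiberwise fun g _ => Finset.mem_univ _
    simp_rw [h1] at h3
    rw [Finset.card_univ, Finset.sum_const, Finset.card_univ, smul_eq_mul] at h3
    rw [h3]
    push_cast
    ring
  have hH : (Fintype.card H : ℝ) ≠ 0 := by exact_mod_cast Fintype.card_ne_zero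
  rw [h2, mul_div_cancel_left₀ _ hH, Finset.mul_sum, ← Finset.sum_fiberwise univ φ]
  refine Finset.sum_congr rfl fun x _ => ?_
  rw [← h1 x, Finset.sum_congr rfl (g := fun _ => f x)
    (fun g hg => by rw [(Finset.mem_filter.1 hg).2]), Finset.sum_const, nsmul_eq_mul]

theorem sum_addHom {G H : Type} [AddGroup G] [AddGroup H] [Fintype G] [Fintype H] [DecidableEq H]
    (φ : G →+ H) (hφ : Function.Surjective φ) (f : H → ℝ) :
    ∑ g, f (φ g) = (Fintype.card G : ℝ) / Fintype.card H * ∑ h, f h := by
  have h1 : ∀ x : H, (univ.filter fun g => φ g = x).card = (univ.filter fun g => φ g = 0).card :=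
    fun x => AddMonoidHom.card_fiber_eq_of_mem_range φ (hφ x) (hφ 0)
  have h2 : (Fintype.card G : ℝ) = Fintype.card H * (univ.filter fun g => φ g = 0).card := by
    have h3 : (univ : Finset G).card = ∑ x : H, (univ.filter fun g => φ g = x).card :=
      Finset.card_eq_sum_card_fiberwise fun g _ => Finset.mem_univ _
    simp_rw [h1] at h3
    rw [Finset.card_univ, Finset.sum_const, Finset.card_univ, smul_eq_mul] at h3
    rw [h3]
    push_cast
    ring
  have hH : (Fintype.card H : ℝ) ≠ 0 := by exact_mod_cast Fintype.card_ne_zero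
  rw [h2, mul_div_cancel_left₀ _ hH, Finset.mul_sum, ← Finset.sum_fiberwise univ φ]
  refine Finset.sum_congr rfl fun x _ => ?_
  rw [← h1 x, Finset.sum_congr rfl (g := fun _ => f x)
    (fun g hg => by rw [(Finset.mem_filter.1 hg).2]), Finset.sum_const, nsmul_eq_mul]

/-- sums over the units -/
theorem sum_un {W : ℕ} [NeZero W] (f : ZMod W → ℝ) :
    ∑ x : ZMod W, un x * f x = ∑ u : (ZMod W)ˣ, f (u : ZMod W) := by
  classical
  have h1 : ∑ x : ZMod W, un x * f x = ∑ x ∈ univ.filter (fun x : ZMod W => IsUnit x), f x := by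
    rw [Finset.sum_filter]
    refine Finset.sum_congr rfl fun x _ => ?_
    unfold un
    split_ifs <;> simp
  rw [h1]
  refine (Finset.sum_bij (fun (u : (ZMod W)ˣ) _ => (u : ZMod W)) ?_ ?_ ?_ ?_).symm
  · intro u _
    exact Finset.mem_filter.2 ⟨Finset.mem_univ _, u.isUnit⟩
  · intro u _ v _ h
    exact Units.ext h
  · intro x hx
    obtain ⟨u, hu⟩ := (Finset.mem_filter.1 hx).2
    exact ⟨u, Finset.mem_univ _, hu⟩
  · intro u _
    rfl

theorem tot_pos {W : ℕ} [NeZero W] : (0 : ℝ) < (Nat.totient W : ℝ) := by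
  exact_mod_cast Nat.totient_pos.2 (Nat.pos_of_ne_zero (NeZero.ne W))

theorem W_pos {W : ℕ} [NeZero W] : (0 : ℝ) < (W : ℝ) := by
  exact_mod_cast Nat.pos_of_ne_zero (NeZero.ne W)

theorem un_sq {W : ℕ} (c : ZMod W) : un c * un c = un c := by
  unfold un
  split_ifs <;> simp

theorem sum_un_one {W : ℕ} [NeZero W] : ∑ x : ZMod W, un x = (Nat.totient W : ℝ) := by
  have h := sum_un (W := W) (fun _ => 1)
  simp only [mul_one] at h
  rw [h, Finset.sum_const, Finset.card_univ, ZMod.card_units_eq_totient, nsmul_eq_mul, mul_one]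

theorem cov_diag {W : ℕ} [NeZero W] (c : ZMod W) : cov W c c = bta W - 1 := by
  unfold cov
  simp_rw [un_sq]
  have h1 : ∑ t : ZMod W, un (c + t) = ∑ t : ZMod W, un t :=
    Fintype.sum_equiv (Equiv.addLeft c) _ _ fun t => rfl
  rw [h1, sum_un_one]
  unfold bta
  have h2 := tot_pos (W := W)
  have h3 := W_pos (W := W)
  field_simp

theorem cov_symm {W : ℕ} [NeZero W] (c d : ZMod W) : cov W c d = cov W d c := by
  unfold cov
  simp_rw [mul_comm (un (d + _))]

theorem cov_stat {W : ℕ} [NeZero W] (c d : ZMod W) : cov W c d = cov W 0 (d - c) := by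
  unfold cov
  have h1 : ∑ t : ZMod W, un (c + t) * un (d + t) = ∑ t : ZMod W, un (0 + t) * un (d - c + t) := by
    refine Fintype.sum_equiv (Equiv.addLeft c) _ _ fun t => ?_
    simp only [Equiv.coe_addLeft, zero_add]
    congr 2
    ring
  rw [h1]

theorem sum_exp_cov {W : ℕ} [NeZero W] (ρ : ℝ) (a : ZMod W) :
    ∑ c : ZMod W, Real.exp (ρ * cov W a c) = vv ρ W * Fintype.card (ZMod W) := by
  unfold vv
  rw [ZMod.card, div_mul_cancel₀ _ (W_pos (W := W)).ne']
  refine Fintype.sum_equiv (Equiv.subRight a) _ _ fun t => ?_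
  rw [cov_stat a t]
  rfl

theorem mass_eq {W : ℕ} [NeZero W] (ρ : ℝ) (g : EuclideanSpace ℝ (ZMod W)) :
    mass ρ W g = (∑ c, Real.exp (√ρ * g c - ρ * (bta W - 1) / 2)) / Fintype.card (ZMod W) := by
  unfold mass
  rw [ZMod.card]

section two

variable {W W' : ℕ} [NeZero W] [NeZero W'] (hd : W ∣ W')

/-- the projection -/
noncomputable def pr : ZMod W' →+* ZMod W := ZMod.castHom hd (ZMod W)

omit [NeZero W] [NeZero W'] in
theorem pr_surj : Function.Surjective (pr hd) := ZMod.castHom_surjective hd

theorem sum_pr (f : ZMod W → ℝ) :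
    (∑ t : ZMod W', f (pr hd t)) / W' = (∑ u : ZMod W, f u) / W := by
  have h := sum_addHom ((pr hd).toAddMonoidHom) (pr_surj hd) f
  have h1 : ∑ t : ZMod W', f (pr hd t) = (W' : ℝ) / W * ∑ u : ZMod W, f u := by
    rw [ZMod.card, ZMod.card] at h
    exact h
  have h2 := W_pos (W := W)
  have h3 := W_pos (W := W')
  rw [h1]
  field_simp

theorem sum_un_pr (f : ZMod W → ℝ) :
    bta W' * (∑ t : ZMod W', un t * f (pr hd t)) / W' = bta W * (∑ u : ZMod W, un u * f u) / W := by
  have h := sum_hom (ZMod.unitsMap hd) (ZMod.unitsMap_surjective hd)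
    (fun u : (ZMod W)ˣ => f (u : ZMod W))
  have h1 : ∑ t : ZMod W', un t * f (pr hd t) =
      (Nat.totient W' : ℝ) / Nat.totient W * ∑ u : ZMod W, un u * f u := by
    rw [sum_un, sum_un, ← ZMod.card_units_eq_totient W', ← ZMod.card_units_eq_totient W]
    exact h
  have h2 := W_pos (W := W)
  have h3 := W_pos (W := W')
  have h4 := tot_pos (W := W)
  have h5 := tot_pos (W := W')
  rw [h1]
  unfold bta
  field_simp

theorem cross (c d : ZMod W') :
    (∑ t : ZMod W', (bta W' * un (c + t)) * (bta W * un (pr hd (d + t)))) / W' =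
      cov W (pr hd c) (pr hd d) + 1 := by
  have h1 : ∑ t : ZMod W', (bta W' * un (c + t)) * (bta W * un (pr hd (d + t))) =
      bta W * (bta W' * ∑ t : ZMod W', un t * un (pr hd d - pr hd c + pr hd t)) := by
    rw [Finset.mul_sum, Finset.mul_sum]
    refine Fintype.sum_equiv (Equiv.addLeft c) _ _ fun t => ?_
    simp only [Equiv.coe_addLeft, map_add]
    rw [show pr hd d - pr hd c + (pr hd c + pr hd t) = pr hd d + pr hd t by ring]
    ring
  have h2 := sum_un_pr hd (fun u => un (pr hd d - pr hd c + u))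
  rw [h1, mul_div_assoc, h2, cov_stat (pr hd c) (pr hd d)]
  unfold cov
  simp only [zero_add]
  ring

theorem square' (c d : ZMod W') :
    (∑ t : ZMod W', (bta W' * un (c + t)) * (bta W' * un (d + t))) / W' = cov W' c d + 1 := by
  unfold cov
  rw [sub_add_cancel, Finset.mul_sum]
  congr 1
  refine Finset.sum_congr rfl fun t _ => ?_
  ring

theorem square (c d : ZMod W') :
    (∑ t : ZMod W', (bta W * un (pr hd (c + t))) * (bta W * un (pr hd (d + t)))) / W' =
      cov W (pr hd c) (pr hd d) + 1 := by
  have h := sum_pr hd (fun u => (bta W * un (pr hd c + u)) * (bta W * un (pr hd d + u)))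
  simp only [map_add]
  rw [h]
  unfold cov
  rw [sub_add_cancel, Finset.mul_sum]
  congr 1
  refine Finset.sum_congr rfl fun t _ => ?_
  ring

/-- the increment of the covariance -/
noncomputable def inc : Matrix (ZMod W') (ZMod W') ℝ := fun c d =>
  cov W' c d - cov W (pr hd c) (pr hd d)

theorem inc_psd : (inc hd).PosSemidef := by
  set Z : Matrix (ZMod W') (ZMod W') ℝ := fun c t =>
    (bta W' * un (c + t) - bta W * un (pr hd (c + t))) / √(W' : ℝ) with hZ
  have h : inc hd = Z * Z.conjTranspose := by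
    ext c d
    rw [Matrix.mul_apply]
    have h1 : ∀ t, Z c t * Z.conjTranspose t d =
        ((bta W' * un (c + t) - bta W * un (pr hd (c + t))) *
          (bta W' * un (d + t) - bta W * un (pr hd (d + t)))) / W' := by
      intro t
      rw [Matrix.conjTranspose_apply, star_trivial, hZ]
      simp only
      rw [div_mul_div_comm, Real.mul_self_sqrt (W_pos (W := W')).le]
    simp_rw [h1]
    rw [← Finset.sum_div]
    have h2 : ∀ t, (bta W' * un (c + t) - bta W * un (pr hd (c + t))) *
          (bta W' * un (d + t) - bta W * un (pr hd (d + t))) =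
        (bta W' * un (c + t)) * (bta W' * un (d + t)) -
        (bta W' * un (c + t)) * (bta W * un (pr hd (d + t))) -
        (bta W' * un (d + t)) * (bta W * un (pr hd (c + t))) +
        (bta W * un (pr hd (c + t))) * (bta W * un (pr hd (d + t))) := fun t => by ring
    simp_rw [h2]
    rw [Finset.sum_add_distrib, Finset.sum_sub_distrib, Finset.sum_sub_distrib, add_div, sub_div,
      sub_div, square', cross, cross, square, cov_symm (pr hd d) (pr hd c)]
    unfold inc
    ring
  rw [h]
  exact Matrix.posSemidef_self_mul_conjTranspose Z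

end two

end Pool.Agent.Q87.GC
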