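import Pool.Agent.Q87.GC.Lev
import Pool.Agent.Q87.GC.Cov

/-! # The lemma on two levels -/

set_option autoImplicit false

namespace Pool.Agent.Q87.GC

open Finset MeasureTheory ProbabilityTheory Filter Topology Pool.Agent.Q145.GC

theorem mass_mm {W : ℕ} [NeZero W] (ρ : ℝ) :
    mass ρ W = mm ρ (bta W - 1) (Fintype.card (ZMod W)) := by
  funext g
  rw [mass_eq]
  rfl

theorem chaos_mm {W : ℕ} [NeZero W] (ρ : ℝ) :
    chaos ρ W = (multivariateGaussian 0 (cov W)).map
      (mm ρ (bta W - 1) (Fintype.card (ZMod W))) := by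
  unfold chaos
  rw [mass_mm]

theorem two (h1 : S_Psd) (h2 : S_Exp) : S_Two := by
  intro ρ hρ w w' hw
  have hd : primorial w ∣ primorial w' := primorial_dvd_primorial hw
  have h := levels h2 (h1 (primorial w)) (inc_psd hd) (h1 (primorial w')) hρ (pr hd)
    (fun a b => by unfold inc; ring) (fun c => cov_diag c) (fun c d => cov_symm c d)
    (fun c => cov_diag c) (fun c d => cov_symm c d) (fun a => sum_exp_cov ρ a)
    (fun a => sum_exp_cov ρ a)
  rw [chaos_mm, chaos_mm]
  exact h

end Pool.Agent.Q87.GC
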