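import Pool.Agent.Q87.GC.Uu
import Pool.Agent.Q145.RC.Trip

/-! # Sums over all pairs: exponential moments, discrepancies -/

set_option autoImplicit false

namespace Pool.Agent.Q87.GC

open Finset Pool.Agent.Q145.GC

theorem shf : S_Shf := Pool.Agent.Q145.RC.shifts_bd 2 (by norm_num)

theorem uex (h1 : S_Th) (h2 : S_Cl) (h3 : S_Hl) (h4 : S_Em) (h5 : S_Qd) : S_Uex :=
  uex' shf h1 h2 h3 h4 h5

theorem utwo (h1 : S_Th) (h2 : S_Cl) (h3 : S_Hl) (h4 : S_Em) (h5 : S_Qd) (h6 : S_Per) : S_Utwo :=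
  utwo' shf h1 h2 h3 h4 h5 h6

end Pool.Agent.Q87.GC
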