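import Pool.Agent.Q145.GC.Spec

/-! # Coupling of Gaussian vectors on two levels -/

set_option autoImplicit false

namespace Pool.Agent.Q87.GC

open Finset MeasureTheory ProbabilityTheory Filter Topology Pool.Agent.Q145.GC

section law

variable {ι ι' : Type} [Fintype ι] [DecidableEq ι] [Fintype ι'] [DecidableEq ι']

/-- the sum of the lift of a vector and of a second vector -/
noncomputable def T (π : ι' → ι) (q : EuclideanSpace ℝ ι × EuclideanSpace ℝ ι') :
    EuclideanSpace ℝ ι' := WithLp.toLp 2 (fun c => q.1 (π c) + q.2 c)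

omit [Fintype ι] [DecidableEq ι] [Fintype ι'] [DecidableEq ι'] in
theorem T_apply (π : ι' → ι) (q : EuclideanSpace ℝ ι × EuclideanSpace ℝ ι') (c : ι') :
    T π q c = q.1 (π c) + q.2 c := rfl

omit [Fintype ι] [DecidableEq ι] [Fintype ι'] [DecidableEq ι'] in
theorem measurable_T (π : ι' → ι) : Measurable (T π) := by
  unfold T
  fun_prop

theorem map_T (π : ι' → ι) {S : Matrix ι ι ℝ} {D S' : Matrix ι' ι' ℝ} (hS : S.PosSemidef)
    (hD : D.PosSemidef) (hS' : S'.PosSemidef) (h : ∀ a b, S' a b = S (π a) (π b) + D a b) :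
    ((multivariateGaussian 0 S).prod (multivariateGaussian 0 D)).map (T π) =
      multivariateGaussian 0 S' := by
  have hprob : IsProbabilityMeasure
      (((multivariateGaussian 0 S).prod (multivariateGaussian 0 D)).map (T π)) :=
    Measure.isProbabilityMeasure_map (measurable_T π).aemeasurable
  refine Measure.ext_of_charFun ?_
  funext x
  set xt : EuclideanSpace ℝ ι := WithLp.toLp 2 (fun a => ∑ c with π c = a, x c) with hxt
  have hxt' : ∀ a, xt a = ∑ c with π c = a, x c := fun a => rfl
  have hin : ∀ q : EuclideanSpace ℝ ι × EuclideanSpace ℝ ι',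
      inner ℝ (T π q) x = inner ℝ q.1 xt + inner ℝ q.2 x := by
    intro q
    rw [PiLp.inner_apply, PiLp.inner_apply, PiLp.inner_apply]
    have h1 : ∑ a, inner ℝ (q.1 a) (xt a) = ∑ c, inner ℝ (q.1 (π c)) (x c) := by
      have h2 : ∑ c, inner ℝ (q.1 (π c)) (x c) =
          ∑ a, ∑ c with π c = a, inner ℝ (q.1 (π c)) (x c) :=
        (Finset.sum_fiberwise univ π _).symm
      rw [h2]
      refine Finset.sum_congr rfl fun a _ => ?_
      rw [hxt', inner_sum]
      refine Finset.sum_congr rfl fun c hc => ?_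
      rw [(Finset.mem_filter.1 hc).2]
    rw [h1, ← Finset.sum_add_distrib]
    refine Finset.sum_congr rfl fun c _ => ?_
    rw [T_apply, inner_add_left]
  rw [charFun_apply, charFun_multivariateGaussian hS',
    integral_map (measurable_T π).aemeasurable (by fun_prop)]
  have h2 : ∀ q : EuclideanSpace ℝ ι × EuclideanSpace ℝ ι',
      Complex.exp ((inner ℝ (T π q) x : ℝ) * Complex.I) =
      Complex.exp ((inner ℝ q.1 xt : ℝ) * Complex.I) *
        Complex.exp ((inner ℝ q.2 x : ℝ) * Complex.I) := by
    intro q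
    rw [hin, ← Complex.exp_add]
    push_cast
    ring_nf
  simp_rw [h2]
  rw [integral_prod_mul (fun g : EuclideanSpace ℝ ι => Complex.exp ((inner ℝ g xt : ℝ) * Complex.I))
    (fun g : EuclideanSpace ℝ ι' => Complex.exp ((inner ℝ g x : ℝ) * Complex.I)),
    ← charFun_apply, ← charFun_apply, charFun_multivariateGaussian hS,
    charFun_multivariateGaussian hD, ← Complex.exp_add]
  congr 1
  simp only [inner_zero_right, Complex.ofReal_zero, zero_mul, zero_sub]
  rw [← neg_add, neg_inj, ← add_div]
  congr 1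
  have h3 : (xt ⬝ᵥ S.mulVec xt : ℝ) + (x ⬝ᵥ D.mulVec x : ℝ) = (x ⬝ᵥ S'.mulVec x : ℝ) := by
    simp only [dotProduct, Matrix.mulVec, h]
    have e1 : ∑ a, xt a * ∑ b, S a b * xt b =
        ∑ c, x c * ∑ d, S (π c) (π d) * x d := by
      have e2 : ∀ a, ∑ b, S a b * xt b = ∑ d, S a (π d) * x d := by
        intro a
        rw [← Finset.sum_fiberwise univ π (fun d => S a (π d) * x d)]
        refine Finset.sum_congr rfl fun b _ => ?_
        rw [hxt', Finset.mul_sum]
        refine Finset.sum_congr rfl fun c hc => ?_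
        rw [(Finset.mem_filter.1 hc).2]
      simp_rw [e2]
      rw [← Finset.sum_fiberwise univ π (fun c => x c * ∑ d, S (π c) (π d) * x d)]
      refine Finset.sum_congr rfl fun a _ => ?_
      rw [hxt', Finset.sum_mul]
      refine Finset.sum_congr rfl fun c hc => ?_
      rw [(Finset.mem_filter.1 hc).2]
    rw [e1, ← Finset.sum_add_distrib]
    refine Finset.sum_congr rfl fun c _ => ?_
    rw [← mul_add, ← Finset.sum_add_distrib]
    congr 1
    refine Finset.sum_congr rfl fun d _ => ?_
    ring
  exact_mod_cast h3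

end law

end Pool.Agent.Q87.GC
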