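import Pool.Agent.Q87.GC.Sec

/-! # Comparison of the laws of the total masses on two levels -/

set_option autoImplicit false

namespace Pool.Agent.Q87.GC

open Finset MeasureTheory ProbabilityTheory Filter Topology Pool.Agent.Q145.GC

theorem sq_integral_abs_le {Ω : Type} [MeasurableSpace Ω] {P : Measure Ω} [IsProbabilityMeasure P]
    {G : Ω → ℝ} (h1 : Integrable G P) (h2 : Integrable (fun ω => G ω ^ 2) P) :
    (∫ ω, |G ω| ∂P) ^ 2 ≤ ∫ ω, G ω ^ 2 ∂P := by
  set t : ℝ := ∫ ω, |G ω| ∂P with ht
  have h3 : 0 ≤ ∫ ω, (|G ω| - t) ^ 2 ∂P := integral_nonneg fun ω => sq_nonneg _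
  have h4 : ∀ ω, (|G ω| - t) ^ 2 = G ω ^ 2 - 2 * t * |G ω| + t ^ 2 := by
    intro ω
    rw [sub_sq, sq_abs]
    ring
  simp_rw [h4] at h3
  have i1 : Integrable (fun ω => 2 * t * |G ω|) P := h1.abs.const_mul _
  have i2 : Integrable (fun ω => G ω ^ 2 - 2 * t * |G ω|) P := h2.sub i1
  have e1 : ∫ ω, (G ω ^ 2 - 2 * t * |G ω| + t ^ 2) ∂P = ∫ ω, G ω ^ 2 ∂P - 2 * t * t + t ^ 2 := by
    rw [integral_add i2 (integrable_const _), integral_sub h2 i1, integral_const_mul,
      integral_const, probReal_univ, one_smul, ← ht]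
  rw [e1] at h3
  nlinarith [h3]

section lev

variable {ι ι' : Type} [Fintype ι] [DecidableEq ι] [Fintype ι'] [DecidableEq ι']

theorem levels (hE : S_Exp) {S : Matrix ι ι ℝ} {D S' : Matrix ι' ι' ℝ} (hS : S.PosSemidef)
    (hD : D.PosSemidef) (hS' : S'.PosSemidef) {ρ : ℝ} (hρ : 0 ≤ ρ) (π : ι' → ι)
    (h : ∀ a b, S' a b = S (π a) (π b) + D a b)
    {s s' V V' : ℝ} [Nonempty ι] [Nonempty ι'] (hs : ∀ c, S c c = s)
    (hsym : ∀ c d, S c d = S d c) (hs' : ∀ c, S' c c = s')
    (hsym' : ∀ c d, S' c d = S' d c)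
    (hV : ∀ a, ∑ c, Real.exp (ρ * S a c) = V * Fintype.card ι)
    (hV' : ∀ a, ∑ c, Real.exp (ρ * S' a c) = V' * Fintype.card ι') :
    V ≤ V' ∧ ∀ (f : ℝ → ℝ) (L : ℝ), (∀ x y, |f x - f y| ≤ L * |x - y|) →
      |∫ x, f x ∂((multivariateGaussian 0 S').map (mm ρ s' (Fintype.card ι'))) -
        ∫ x, f x ∂((multivariateGaussian 0 S).map (mm ρ s (Fintype.card ι)))| ≤
        L * √(V' - V) := by
  have hd : ∀ c, D c c = s' - s := fun c => by
    have := h c c
    rw [hs', hs] at this
    linarith
  set P : Measure (EuclideanSpace ℝ ι × EuclideanSpace ℝ ι') :=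
    (multivariateGaussian 0 S).prod (multivariateGaussian 0 D) with hP
  have hPp : IsProbabilityMeasure P := by rw [hP]; infer_instance
  have hmap : P.map (T π) = multivariateGaussian 0 S' := map_T π hS hD hS' h
  have hfst : P.map Prod.fst = multivariateGaussian 0 S := by
    rw [hP, Measure.map_fst_prod, measure_univ, one_smul]
  set F : EuclideanSpace ℝ ι × EuclideanSpace ℝ ι' → ℝ := fun q =>
    mm ρ s (Fintype.card ι) q.1 with hF
  set F' : EuclideanSpace ℝ ι × EuclideanSpace ℝ ι' → ℝ := fun q =>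
    mm ρ s' (Fintype.card ι') (T π q) with hF'
  have mF : Measurable F := (continuous_mm _ _ _).measurable.comp measurable_fst
  have mF' : Measurable F' := (continuous_mm _ _ _).measurable.comp (measurable_T π)
  obtain ⟨a1, a2⟩ := mm_sq hE hS hρ hs hsym hV
  obtain ⟨b1, b2⟩ := mm_sq hE hS' hρ hs' hsym' hV'
  obtain ⟨c1, c2⟩ := mm_mixed hE hS hD hρ π hs hsym hd hV
  have hc : Continuous (fun g : EuclideanSpace ℝ ι => mm ρ s (Fintype.card ι) g ^ 2) :=
    (continuous_mm _ _ _).pow 2
  have hc' : Continuous (fun g : EuclideanSpace ℝ ι' => mm ρ s' (Fintype.card ι') g ^ 2) :=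
    (continuous_mm _ _ _).pow 2
  have iF : Integrable (fun q => F q ^ 2) P := by
    rw [← hfst] at a1
    exact (integrable_map_measure hc.aestronglyMeasurable measurable_fst.aemeasurable).1 a1
  have eF : ∫ q, F q ^ 2 ∂P = V := by
    rw [← a2, ← hfst, integral_map measurable_fst.aemeasurable hc.aestronglyMeasurable]
  have iF' : Integrable (fun q => F' q ^ 2) P := by
    rw [← hmap] at b1
    exact (integrable_map_measure hc'.aestronglyMeasurable
      (measurable_T π).aemeasurable).1 b1
  have eF' : ∫ q, F' q ^ 2 ∂P = V' := by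
    rw [← b2, ← hmap, integral_map (measurable_T π).aemeasurable hc'.aestronglyMeasurable]
  have iM : Integrable (fun q => F' q * F q) P := c1
  have eM : ∫ q, F' q * F q ∂P = V := c2
  have hsq : ∀ q, (F' q - F q) ^ 2 = F' q ^ 2 - 2 * (F' q * F q) + F q ^ 2 := fun q => by ring
  have iD : Integrable (fun q => (F' q - F q) ^ 2) P := by
    simp_rw [hsq]
    exact (iF'.sub (iM.const_mul 2)).add iF
  have eD : ∫ q, (F' q - F q) ^ 2 ∂P = V' - V := by
    simp_rw [hsq]
    have i1 : Integrable (fun q => 2 * (F' q * F q)) P := iM.const_mul 2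
    have i2 : Integrable (fun q => F' q ^ 2 - 2 * (F' q * F q)) P := iF'.sub i1
    rw [integral_add i2 iF, integral_sub iF' i1, integral_const_mul, eF, eF', eM]
    ring
  have hVV : V ≤ V' := by
    have : 0 ≤ ∫ q, (F' q - F q) ^ 2 ∂P := integral_nonneg fun q => sq_nonneg _
    rw [eD] at this
    linarith
  refine ⟨hVV, fun f L hf => ?_⟩
  have hL : 0 ≤ L := by
    have := (abs_nonneg _).trans (hf 0 1)
    norm_num at this
    exact this
  have jF : Integrable F P := by
    have : MemLp F 2 P := (memLp_two_iff_integrable_sq mF.aestronglyMeasurable).2 iF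
    exact this.integrable (by norm_num)
  have jF' : Integrable F' P := by
    have : MemLp F' 2 P := (memLp_two_iff_integrable_sq mF'.aestronglyMeasurable).2 iF'
    exact this.integrable (by norm_num)
  have fc : Continuous f := by
    have : LipschitzWith (Real.toNNReal L) f := by
      refine LipschitzWith.of_dist_le_mul fun x y => ?_
      rw [Real.dist_eq, Real.dist_eq, Real.coe_toNNReal _ hL]
      exact hf x y
    exact this.continuous
  have fi : ∀ {G : EuclideanSpace ℝ ι × EuclideanSpace ℝ ι' → ℝ}, Measurable G →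
      Integrable G P → Integrable (fun q => f (G q)) P := by
    intro G mG jG
    refine Integrable.mono' ((integrable_const (|f 0|)).add (jG.abs.const_mul L))
      (fc.measurable.comp mG).aestronglyMeasurable (Eventually.of_forall fun q => ?_)
    have h1 := hf (G q) 0
    rw [sub_zero] at h1
    have h2 := abs_sub_abs_le_abs_sub (f (G q)) (f 0)
    rw [Real.norm_eq_abs]
    simp only [Pi.add_apply]
    linarith
  have gc : Continuous (fun g : EuclideanSpace ℝ ι => f (mm ρ s (Fintype.card ι) g)) :=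
    fc.comp (continuous_mm _ _ _)
  have gc' : Continuous (fun g : EuclideanSpace ℝ ι' => f (mm ρ s' (Fintype.card ι') g)) :=
    fc.comp (continuous_mm _ _ _)
  have e1 : ∫ x, f x ∂((multivariateGaussian 0 S').map (mm ρ s' (Fintype.card ι'))) =
      ∫ q, f (F' q) ∂P := by
    rw [integral_map (continuous_mm _ _ _).measurable.aemeasurable fc.aestronglyMeasurable,
      ← hmap, integral_map (measurable_T π).aemeasurable gc'.aestronglyMeasurable]
  have e2 : ∫ x, f x ∂((multivariateGaussian 0 S).map (mm ρ s (Fintype.card ι))) =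
      ∫ q, f (F q) ∂P := by
    rw [integral_map (continuous_mm _ _ _).measurable.aemeasurable fc.aestronglyMeasurable,
      ← hfst, integral_map measurable_fst.aemeasurable gc.aestronglyMeasurable]
  rw [e1, e2, ← integral_sub (fi mF' jF') (fi mF jF)]
  have jD : Integrable (fun q => F' q - F q) P := jF'.sub jF
  have k1 : |∫ q, (f (F' q) - f (F q)) ∂P| ≤ ∫ q, L * |F' q - F q| ∂P := by
    refine (abs_integral_le_integral_abs).trans ?_
    refine integral_mono ((fi mF' jF').sub (fi mF jF)).abs (jD.abs.const_mul L) fun q => ?_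
    exact hf _ _
  refine k1.trans ?_
  rw [integral_const_mul]
  refine mul_le_mul_of_nonneg_left ?_ hL
  refine Real.le_sqrt_of_sq_le ?_
  rw [← eD]
  exact sq_integral_abs_le jD iD

end lev

end Pool.Agent.Q87.GC
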