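import Pool.Agent.Q87.GC.Two

/-! # Moments of the total mass, comparison for functions of quadratic growth -/

set_option autoImplicit false

namespace Pool.Agent.Q87.GC

open Finset MeasureTheory ProbabilityTheory Filter Topology Pool.Agent.Q145.GC

section gen

variable {ι ι' : Type} [Fintype ι] [DecidableEq ι] [Fintype ι'] [DecidableEq ι']

/-- the mean of the total mass -/
theorem mm_mean (hE : S_Exp) {S : Matrix ι ι ℝ} (hS : S.PosSemidef) {ρ : ℝ} (hρ : 0 ≤ ρ)
    {s : ℝ} [Nonempty ι] (hs : ∀ c, S c c = s) :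
    Integrable (fun g : EuclideanSpace ℝ ι => mm ρ s (Fintype.card ι) g)
      (multivariateGaussian 0 S) ∧
    ∫ g : EuclideanSpace ℝ ι, mm ρ s (Fintype.card ι) g ∂(multivariateGaussian 0 S) = 1 := by
  have hcard : (Fintype.card ι : ℝ) ≠ 0 := by exact_mod_cast Fintype.card_ne_zero
  have h1 : ∀ g : EuclideanSpace ℝ ι, mm ρ s (Fintype.card ι) g =
      ∑ c, (Real.exp (-(ρ * s / 2)) / (Fintype.card ι : ℝ)) * Real.exp (√ρ * g c) := by
    intro g
    unfold mm
    rw [Finset.sum_div]
    refine Finset.sum_congr rfl fun c _ => ?_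
    rw [div_mul_eq_mul_div, ← Real.exp_add]
    congr 2
    ring
  simp_rw [h1]
  constructor
  · exact integrable_finsetSum _ fun c _ => ((exp_one hE hS hρ c).1).const_mul _
  · rw [integral_finsetSum _ fun c _ => ((exp_one hE hS hρ c).1).const_mul _]
    have h2 : ∀ c, ∫ g : EuclideanSpace ℝ ι, (Real.exp (-(ρ * s / 2)) /
        (Fintype.card ι : ℝ)) * Real.exp (√ρ * g c) ∂(multivariateGaussian 0 S) =
        1 / (Fintype.card ι : ℝ) := by
      intro c
      rw [integral_const_mul, (exp_one hE hS hρ c).2, div_mul_eq_mul_div, ← Real.exp_add, hs]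
      congr 1
      rw [Real.exp_eq_one_iff]
      ring
    simp_rw [h2]
    rw [Finset.sum_const, Finset.card_univ, nsmul_eq_mul]
    field_simp

theorem levels_quad (hE : S_Exp) {S : Matrix ι ι ℝ} {D S' : Matrix ι' ι' ℝ} (hS : S.PosSemidef)
    (hD : D.PosSemidef) (hS' : S'.PosSemidef) {ρ : ℝ} (hρ : 0 ≤ ρ) (π : ι' → ι)
    (h : ∀ a b, S' a b = S (π a) (π b) + D a b)
    {s s' V V' : ℝ} [Nonempty ι] [Nonempty ι'] (hs : ∀ c, S c c = s)
    (hsym : ∀ c d, S c d = S d c) (hs' : ∀ c, S' c c = s')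
    (hsym' : ∀ c d, S' c d = S' d c)
    (hV : ∀ a, ∑ c, Real.exp (ρ * S a c) = V * Fintype.card ι)
    (hV' : ∀ a, ∑ c, Real.exp (ρ * S' a c) = V' * Fintype.card ι')
    (f : ℝ → ℝ) (fc : Continuous f) (hf : ∀ x y, |f x - f y| ≤ |x - y| * (|x| + |y|))
    {t : ℝ} (ht : 0 < t) :
      |∫ x, f x ∂((multivariateGaussian 0 S').map (mm ρ s' (Fintype.card ι'))) -
        ∫ x, f x ∂((multivariateGaussian 0 S).map (mm ρ s (Fintype.card ι)))| ≤
        (V' - V) / (2 * t) + t * (V + V') := by
  have hd : ∀ c, D c c = s' - s := fun c => by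
    have := h c c
    rw [hs', hs] at this
    linarith
  set P : Measure (EuclideanSpace ℝ ι × EuclideanSpace ℝ ι') :=
    (multivariateGaussian 0 S).prod (multivariateGaussian 0 D) with hP
  have hPp : IsProbabilityMeasure P := by rw [hP]; infer_instance
  have hmap : P.map (T π) = multivariateGaussian 0 S' := map_T π hS hD hS' h
  have hfst : P.map Prod.fst = multivariateGaussian 0 S := by
    rw [hP, Measure.map_fst_prod, measure_univ, one_smul]
  set F : EuclideanSpace ℝ ι × EuclideanSpace ℝ ι' → ℝ := fun q =>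
    mm ρ s (Fintype.card ι) q.1 with hF
  set F' : EuclideanSpace ℝ ι × EuclideanSpace ℝ ι' → ℝ := fun q =>
    mm ρ s' (Fintype.card ι') (T π q) with hF'
  have mF : Measurable F := (continuous_mm _ _ _).measurable.comp measurable_fst
  have mF' : Measurable F' := (continuous_mm _ _ _).measurable.comp (measurable_T π)
  obtain ⟨a1, a2⟩ := mm_sq hE hS hρ hs hsym hV
  obtain ⟨b1, b2⟩ := mm_sq hE hS' hρ hs' hsym' hV'
  obtain ⟨c1, c2⟩ := mm_mixed hE hS hD hρ π hs hsym hd hV
  have hc : Continuous (fun g : EuclideanSpace ℝ ι => mm ρ s (Fintype.card ι) g ^ 2) :=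
    (continuous_mm _ _ _).pow 2
  have hc' : Continuous (fun g : EuclideanSpace ℝ ι' => mm ρ s' (Fintype.card ι') g ^ 2) :=
    (continuous_mm _ _ _).pow 2
  have iF : Integrable (fun q => F q ^ 2) P := by
    rw [← hfst] at a1
    exact (integrable_map_measure hc.aestronglyMeasurable measurable_fst.aemeasurable).1 a1
  have eF : ∫ q, F q ^ 2 ∂P = V := by
    rw [← a2, ← hfst, integral_map measurable_fst.aemeasurable hc.aestronglyMeasurable]
  have iF' : Integrable (fun q => F' q ^ 2) P := by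
    rw [← hmap] at b1
    exact (integrable_map_measure hc'.aestronglyMeasurable
      (measurable_T π).aemeasurable).1 b1
  have eF' : ∫ q, F' q ^ 2 ∂P = V' := by
    rw [← b2, ← hmap, integral_map (measurable_T π).aemeasurable hc'.aestronglyMeasurable]
  have iM : Integrable (fun q => F' q * F q) P := c1
  have eM : ∫ q, F' q * F q ∂P = V := c2
  have fi : ∀ {G : EuclideanSpace ℝ ι × EuclideanSpace ℝ ι' → ℝ}, Measurable G →
      Integrable (fun q => G q ^ 2) P → Integrable (fun q => f (G q)) P := by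
    intro G mG jG
    refine Integrable.mono' ((integrable_const (|f 0|)).add jG)
      (fc.measurable.comp mG).aestronglyMeasurable (Eventually.of_forall fun q => ?_)
    have h1 := hf (G q) 0
    rw [sub_zero, abs_zero, add_zero, ← sq, sq_abs] at h1
    have h2 := abs_sub_abs_le_abs_sub (f (G q)) (f 0)
    rw [Real.norm_eq_abs]
    simp only [Pi.add_apply]
    linarith
  have gc : Continuous (fun g : EuclideanSpace ℝ ι => f (mm ρ s (Fintype.card ι) g)) :=
    fc.comp (continuous_mm _ _ _)
  have gc' : Continuous (fun g : EuclideanSpace ℝ ι' => f (mm ρ s' (Fintype.card ι') g)) :=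
    fc.comp (continuous_mm _ _ _)
  have e1 : ∫ x, f x ∂((multivariateGaussian 0 S').map (mm ρ s' (Fintype.card ι'))) =
      ∫ q, f (F' q) ∂P := by
    rw [integral_map (continuous_mm _ _ _).measurable.aemeasurable fc.aestronglyMeasurable,
      ← hmap, integral_map (measurable_T π).aemeasurable gc'.aestronglyMeasurable]
  have e2 : ∫ x, f x ∂((multivariateGaussian 0 S).map (mm ρ s (Fintype.card ι))) =
      ∫ q, f (F q) ∂P := by
    rw [integral_map (continuous_mm _ _ _).measurable.aemeasurable fc.aestronglyMeasurable,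
      ← hfst, integral_map measurable_fst.aemeasurable gc.aestronglyMeasurable]
  rw [e1, e2, ← integral_sub (fi mF' iF') (fi mF iF)]
  have i1 : Integrable (fun q => (1 / (2 * t) + t) * F' q ^ 2) P := iF'.const_mul _
  have i2 : Integrable (fun q => 1 / t * (F' q * F q)) P := iM.const_mul _
  have i3 : Integrable (fun q => (1 / (2 * t) + t) * F q ^ 2) P := iF.const_mul _
  have i4 : Integrable (fun q => (1 / (2 * t) + t) * F' q ^ 2 - 1 / t * (F' q * F q)) P := i1.sub i2
  have i5 : Integrable (fun q => (1 / (2 * t) + t) * F' q ^ 2 - 1 / t * (F' q * F q) +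
    (1 / (2 * t) + t) * F q ^ 2) P := i4.add i3
  have k1 : |∫ q, (f (F' q) - f (F q)) ∂P| ≤
      ∫ q, ((1 / (2 * t) + t) * F' q ^ 2 - 1 / t * (F' q * F q) +
        (1 / (2 * t) + t) * F q ^ 2) ∂P := by
    refine (abs_integral_le_integral_abs).trans ?_
    refine integral_mono ((fi mF' iF').sub (fi mF iF)).abs i5 fun q => ?_
    refine (hf _ _).trans ?_
    have h1 : (1 / (2 * t) + t) * F' q ^ 2 - 1 / t * (F' q * F q) + (1 / (2 * t) + t) * F q ^ 2 =
        (F' q - F q) ^ 2 / (2 * t) + t * (F' q ^ 2 + F q ^ 2) := by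
      field_simp
      ring
    have h2 : (|F' q| + |F q|) ^ 2 ≤ 2 * (F' q ^ 2 + F q ^ 2) := by
      have h3 := sq_nonneg (|F' q| - |F q|)
      nlinarith [sq_abs (F' q), sq_abs (F q)]
    have h4 : |F' q - F q| * (|F' q| + |F q|) ≤
        |F' q - F q| ^ 2 / (2 * t) + t / 2 * (|F' q| + |F q|) ^ 2 := by
      have h5 := sq_nonneg (|F' q - F q| - t * (|F' q| + |F q|))
      have h6 : |F' q - F q| ^ 2 / (2 * t) + t / 2 * (|F' q| + |F q|) ^ 2 -
          |F' q - F q| * (|F' q| + |F q|) =
          (|F' q - F q| - t * (|F' q| + |F q|)) ^ 2 / (2 * t) := by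
        field_simp
        ring
      have h7 : 0 ≤ (|F' q - F q| - t * (|F' q| + |F q|)) ^ 2 / (2 * t) := by positivity
      linarith
    rw [h1]
    refine h4.trans ?_
    rw [sq_abs]
    have h8 : t / 2 * (|F' q| + |F q|) ^ 2 ≤ t / 2 * (2 * (F' q ^ 2 + F q ^ 2)) :=
      mul_le_mul_of_nonneg_left h2 (by positivity)
    linarith
  refine k1.trans (le_of_eq ?_)
  rw [integral_add i4 i3, integral_sub i1 i2, integral_const_mul, integral_const_mul,
    integral_const_mul, eF, eF', eM]
  field_simp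
  ring

end gen

section chaos

variable (h1 : S_Psd) (h2 : S_Exp) {ρ : ℝ} (hρ : 0 ≤ ρ)

instance chaos_prob (ρ : ℝ) (W : ℕ) [NeZero W] : IsProbabilityMeasure (chaos ρ W) := by
  rw [chaos_mm]
  exact Measure.isProbabilityMeasure_map (continuous_mm _ _ _).measurable.aemeasurable

theorem chaos_neg (ρ : ℝ) (W : ℕ) [NeZero W] : chaos ρ W (Set.Iio 0) = 0 := by
  rw [chaos_mm, Measure.map_apply (continuous_mm _ _ _).measurable measurableSet_Iio]
  have h : (mm ρ (bta W - 1) (Fintype.card (ZMod W)) : EuclideanSpace ℝ (ZMod W) → ℝ) ⁻¹'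
      Set.Iio 0 = ∅ := by
    ext g
    simp only [Set.mem_preimage, Set.mem_Iio, Set.mem_empty_iff_false, iff_false, not_lt]
    exact mm_nonneg (by positivity) g
  rw [h, measure_empty]

include h1 h2 hρ in
theorem chaos_mean (W : ℕ) [NeZero W] :
    Integrable (fun x => x) (chaos ρ W) ∧ ∫ x, x ∂(chaos ρ W) = 1 := by
  obtain ⟨a, b⟩ := mm_mean h2 (h1 W) hρ (fun c => cov_diag c)
  rw [chaos_mm]
  have hc : Continuous (fun x : ℝ => x) := continuous_id
  constructor
  · exact (integrable_map_measure hc.aestronglyMeasurable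
      (continuous_mm _ _ _).measurable.aemeasurable).2 a
  · rw [integral_map (continuous_mm _ _ _).measurable.aemeasurable hc.aestronglyMeasurable]
    exact b

include h1 h2 hρ in
theorem chaos_sq (W : ℕ) [NeZero W] :
    Integrable (fun x => x ^ 2) (chaos ρ W) ∧ ∫ x, x ^ 2 ∂(chaos ρ W) = vv ρ W := by
  obtain ⟨a, b⟩ := mm_sq h2 (h1 W) hρ (fun c => cov_diag c) (fun c d => cov_symm c d)
    (fun a => sum_exp_cov ρ a)
  rw [chaos_mm]
  have hc : Continuous (fun x : ℝ => x ^ 2) := continuous_pow 2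
  constructor
  · exact (integrable_map_measure hc.aestronglyMeasurable
      (continuous_mm _ _ _).measurable.aemeasurable).2 a
  · rw [integral_map (continuous_mm _ _ _).measurable.aemeasurable hc.aestronglyMeasurable]
    exact b

include h1 h2 hρ in
theorem two_quad {w w' : ℕ} (hw : w ≤ w') (f : ℝ → ℝ) (fc : Continuous f)
    (hf : ∀ x y, |f x - f y| ≤ |x - y| * (|x| + |y|)) {t : ℝ} (ht : 0 < t) :
    |∫ x, f x ∂(chaos ρ (primorial w')) - ∫ x, f x ∂(chaos ρ (primorial w))| ≤
      (vv ρ (primorial w') - vv ρ (primorial w)) / (2 * t) +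
        t * (vv ρ (primorial w) + vv ρ (primorial w')) := by
  have hd : primorial w ∣ primorial w' := primorial_dvd_primorial hw
  have h := levels_quad h2 (h1 (primorial w)) (inc_psd hd) (h1 (primorial w')) hρ (pr hd)
    (fun a b => by unfold inc; ring) (fun c => cov_diag c) (fun c d => cov_symm c d)
    (fun c => cov_diag c) (fun c d => cov_symm c d) (fun a => sum_exp_cov ρ a)
    (fun a => sum_exp_cov ρ a) f fc hf ht
  rw [chaos_mm, chaos_mm]
  exact h

theorem vv_two (W : ℕ) [NeZero W] (hW : W = 2) (ρ : ℝ) : vv ρ W = Real.cosh ρ := by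
  subst hW
  have u0 : un (0 : ZMod 2) = 0 := by
    unfold un
    rw [if_neg]
    exact not_isUnit_zero
  have u1 : un (1 : ZMod 2) = 1 := by
    unfold un
    rw [if_pos isUnit_one]
  have hb : bta 2 = 2 := by
    unfold bta
    rw [Nat.totient_two]
    norm_num
  have hs : ∀ f : ZMod 2 → ℝ, ∑ x : ZMod 2, f x = f 0 + f 1 := fun f => Fin.sum_univ_two f
  have c0 : cov 2 0 0 = 1 := by
    rw [cov_diag, hb]
    norm_num
  have c1 : cov 2 0 1 = -1 := by
    unfold cov
    rw [hs, hb, zero_add, zero_add, add_zero, u0, u1, show (1 : ZMod 2) + 1 = 0 from rfl, u0]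
    norm_num
  unfold vv
  rw [hs, c0, c1, Real.cosh_eq, mul_one, mul_neg, mul_one]
  norm_num

end chaos

end Pool.Agent.Q87.GC
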