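import Mathlib

/-! # Sums over pairs of integers of functions of the distance -/

set_option autoImplicit false

namespace Pool.Agent.Q87.GC

open Finset

theorem sum_dist_le (Y n : ℕ) (hn : n ∈ Icc 1 Y) (f : ℕ → ℝ) (hf : ∀ h, 0 ≤ f h) :
    ∑ m ∈ (Icc 1 Y).filter (fun m => n ≠ m), f (Nat.dist n m) ≤ 2 * ∑ h ∈ Icc 1 Y, f h := by
  rw [mem_Icc] at hn
  have h1 : (Icc 1 Y).filter (fun m => n ≠ m) =
      (Icc 1 Y).filter (fun m => m < n) ∪ (Icc 1 Y).filter (fun m => n < m) := by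
    ext m
    simp only [mem_filter, mem_union, mem_Icc]
    omega
  have h2 : Disjoint ((Icc 1 Y).filter (fun m => m < n)) ((Icc 1 Y).filter (fun m => n < m)) := by
    rw [Finset.disjoint_left]
    intro m hm hm'
    rw [mem_filter] at hm hm'
    omega
  rw [h1, Finset.sum_union h2, two_mul]
  have key : ∀ T : Finset ℕ, Set.InjOn (fun m => Nat.dist n m) (T : Set ℕ) →
      (∀ m ∈ T, Nat.dist n m ∈ Icc 1 Y) → ∑ m ∈ T, f (Nat.dist n m) ≤ ∑ h ∈ Icc 1 Y, f h := by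
    intro T hi hT
    rw [← Finset.sum_image (f := f) (g := fun m => Nat.dist n m) hi]
    exact Finset.sum_le_sum_of_subset_of_nonneg (fun x hx => by
      obtain ⟨m, hm, rfl⟩ := mem_image.1 hx
      exact hT m hm) fun h _ _ => hf h
  refine add_le_add (key _ ?_ ?_) (key _ ?_ ?_)
  · intro a ha b hb hab
    rw [mem_coe, mem_filter, mem_Icc] at ha hb
    simp only [Nat.dist] at hab
    omega
  · intro m hm
    rw [mem_filter, mem_Icc] at hm
    rw [mem_Icc]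
    simp only [Nat.dist]
    omega
  · intro a ha b hb hab
    rw [mem_coe, mem_filter, mem_Icc] at ha hb
    simp only [Nat.dist] at hab
    omega
  · intro m hm
    rw [mem_filter, mem_Icc] at hm
    rw [mem_Icc]
    simp only [Nat.dist]
    omega

theorem sum_pairs_le (Y : ℕ) (F : Finset ℕ → ℝ) (f : ℕ → ℝ) (g : ℝ) (B : Finset (ℕ × ℕ))
    (hf : ∀ h, 0 ≤ f h) (hg : 0 ≤ g) (hF0 : ∀ A, 0 ≤ F A)
    (hF : ∀ n ∈ Icc 1 Y, ∀ m ∈ Icc 1 Y, n ≠ m →
      F {n, m} ≤ f (Nat.dist n m) + if (n, m) ∈ B then g else 0) :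
    ∑ A ∈ powersetCard 2 (Icc 1 Y), F A ≤ 2 * Y * ∑ h ∈ Icc 1 Y, f h + g * B.card := by
  classical
  have hmap : ∀ q ∈ (Icc 1 Y).offDiag, ({q.1, q.2} : Finset ℕ) ∈ powersetCard 2 (Icc 1 Y) := by
    intro q hq
    rw [mem_offDiag] at hq
    rw [mem_powersetCard]
    refine ⟨?_, card_pair hq.2.2⟩
    intro x hx
    rw [mem_insert, mem_singleton] at hx
    rcases hx with rfl | rfl
    · exact hq.1
    · exact hq.2.1
  have h1 : ∑ A ∈ powersetCard 2 (Icc 1 Y), F A ≤ ∑ q ∈ (Icc 1 Y).offDiag, F {q.1, q.2} := by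
    rw [← Finset.sum_fiberwise_of_maps_to hmap]
    refine Finset.sum_le_sum fun A hA => ?_
    rw [mem_powersetCard] at hA
    obtain ⟨a, b, hab, rfl⟩ := card_eq_two.1 hA.2
    have ha : a ∈ Icc 1 Y := hA.1 (by simp)
    have hb : b ∈ Icc 1 Y := hA.1 (by simp)
    have hmem : (a, b) ∈ (Icc 1 Y).offDiag.filter (fun q => ({q.1, q.2} : Finset ℕ) = {a, b}) := by
      rw [mem_filter, mem_offDiag]
      exact ⟨⟨ha, hb, hab⟩, rfl⟩
    exact Finset.single_le_sum (f := fun q : ℕ × ℕ => F {q.1, q.2}) (fun q _ => hF0 _) hmem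
  have h2 : ∑ q ∈ (Icc 1 Y).offDiag, F {q.1, q.2} ≤
      ∑ q ∈ (Icc 1 Y).offDiag, (f (Nat.dist q.1 q.2) + if q ∈ B then g else 0) := by
    refine Finset.sum_le_sum fun q hq => ?_
    rw [mem_offDiag] at hq
    exact hF q.1 hq.1 q.2 hq.2.1 hq.2.2
  have h3 : ∑ q ∈ (Icc 1 Y).offDiag, (if q ∈ B then g else 0) ≤ g * B.card := by
    rw [← Finset.sum_filter, Finset.sum_const, nsmul_eq_mul, mul_comm]
    refine mul_le_mul_of_nonneg_left ?_ hg
    exact_mod_cast card_le_card fun q hq => (mem_filter.1 hq).2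
  have h4 : ∑ q ∈ (Icc 1 Y).offDiag, f (Nat.dist q.1 q.2) ≤ 2 * Y * ∑ h ∈ Icc 1 Y, f h := by
    have h5 : (Icc 1 Y).offDiag = (Icc 1 Y ×ˢ Icc 1 Y).filter (fun q => q.1 ≠ q.2) := by
      ext q
      simp only [mem_offDiag, mem_filter, mem_product]
      tauto
    rw [h5, Finset.sum_filter, Finset.sum_product]
    have h6 : ∀ n ∈ Icc 1 Y, ∑ m ∈ Icc 1 Y, (if n ≠ m then f (Nat.dist n m) else 0) ≤
        2 * ∑ h ∈ Icc 1 Y, f h := by
      intro n hn
      rw [← Finset.sum_filter]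
      exact sum_dist_le Y n hn f hf
    refine (Finset.sum_le_card_nsmul _ _ _ h6).trans ?_
    rw [Nat.card_Icc, Nat.add_sub_cancel, nsmul_eq_mul]
    linarith
  rw [Finset.sum_add_distrib] at h2
  linarith

end Pool.Agent.Q87.GC
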