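import Pool.Agent.Q121.GC.Bdd
import Pool.Agent.Q87.GC.Cov

/-! # The product of the covariance and of the factor of the singular series -/

set_option autoImplicit false

namespace Pool.Agent.Q87.GC

open Finset Pool.Agent.Q145.GC
open Pool.Agent.Q121.GC (Pr prm primorial_eq cnt cnt_p ratio)

theorem cov_prod (w k : ℕ) :
    cov (primorial w) 0 (k : ZMod (primorial w)) + 1 ≤
      ∏ p ∈ Pr w, (if p ∣ k then ((p : ℝ) / (p - 1)) else 1) := by
  have e1 : cov (primorial w) 0 (k : ZMod (primorial w)) + 1 =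
      bta (primorial w) ^ 2 * (∑ t : ZMod (primorial w), un (0 + t) *
        un ((k : ZMod (primorial w)) + t)) / (primorial w : ℕ) := by
    unfold cov
    ring
  rw [e1, cnt]
  have hpos : ∀ p ∈ Pr w, (1 : ℝ) < p := fun p hp => by exact_mod_cast (prm w p hp).one_lt
  have hb : bta (primorial w) = ∏ p ∈ Pr w, ((p : ℝ) / (p - 1)) := by
    unfold bta
    rw [primorial_eq, H373R2.T7.totient_prod (Pr w) (prm w), Finset.prod_div_distrib]
    push_cast
    congr 1
    refine Finset.prod_congr rfl fun p hp => ?_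
    rw [Nat.cast_sub (prm w p hp).one_lt.le, Nat.cast_one]
  rw [hb, primorial_eq, ← Finset.prod_pow]
  push_cast
  rw [← Finset.prod_mul_distrib, ← Finset.prod_div_distrib]
  refine Finset.prod_le_prod (fun p hp => by have := hpos p hp; positivity) fun p hp => ?_
  have h2 := cnt_p p k (prm w p hp)
  have h3 := hpos p hp
  have h4 : (0 : ℝ) < (p : ℝ) - 1 := by linarith
  have h5 : (0 : ℝ) < (p : ℝ) := by linarith
  split_ifs with h
  · rw [if_pos h] at h2
    calc _ ≤ ((p : ℝ) / (p - 1)) ^ 2 * ((p : ℝ) - 1) / p := by gcongr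
      _ = _ := by field_simp
  · rw [if_neg h] at h2
    calc _ ≤ ((p : ℝ) / (p - 1)) ^ 2 * ((p : ℝ) - 2) / p := by gcongr
      _ = ((p : ℝ) * (p - 2)) / ((p - 1) ^ 2) := by field_simp
      _ ≤ 1 := by
        rw [div_le_one (by positivity)]
        nlinarith

theorem cov_nonneg (W : ℕ) [NeZero W] (a b : ZMod W) : 0 ≤ cov W a b + 1 := by
  unfold cov
  rw [sub_add_cancel]
  have h : ∀ c : ZMod W, 0 ≤ un c := fun c => by
    unfold un
    split_ifs <;> norm_num
  have := Finset.sum_nonneg (s := (univ : Finset (ZMod W)))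
    (f := fun t => un (a + t) * un (b + t)) fun t _ => mul_nonneg (h _) (h _)
  positivity

theorem sg_nonneg (w z k : ℕ) : 0 ≤ sg w z k := by
  unfold sg
  refine Finset.prod_nonneg fun p hp => ?_
  have hp2 : (2 : ℝ) ≤ p := by exact_mod_cast (mem_filter.1 hp).2.two_le
  split_ifs
  · exact div_nonneg (by linarith) (by linarith)
  · exact div_nonneg (mul_nonneg (by linarith) (by linarith)) (sq_nonneg _)

theorem sg_prod (w z k : ℕ) :
    sg w z k ≤ ∏ p ∈ (Ioc w z).filter Nat.Prime, (if p ∣ k then ((p : ℝ) / (p - 1)) else 1) := by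
  unfold sg
  refine Finset.prod_le_prod (fun p hp => ?_) fun p hp => ?_
  · have hp2 : (2 : ℝ) ≤ p := by exact_mod_cast (mem_filter.1 hp).2.two_le
    split_ifs
    · exact div_nonneg (by linarith) (by linarith)
    · exact div_nonneg (mul_nonneg (by linarith) (by linarith)) (sq_nonneg _)
  · have hp2 : (2 : ℝ) ≤ p := by exact_mod_cast (mem_filter.1 hp).2.two_le
    split_ifs
    · exact le_refl _
    · have h4 : (0 : ℝ) < (p : ℝ) - 1 := by linarith
      rw [div_le_one (by positivity)]
      nlinarith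

theorem prod_le_ratio (T : Finset ℕ) (hT : ∀ p ∈ T, p.Prime) (k : ℕ) (hk : 1 ≤ k) :
    ∏ p ∈ T, (if p ∣ k then ((p : ℝ) / (p - 1)) else 1) ≤ (k : ℝ) / Nat.totient k := by
  rw [ratio k hk, ← Finset.prod_filter]
  have hsub : T.filter (fun p => p ∣ k) ⊆ k.primeFactors := by
    intro p hp
    rw [mem_filter] at hp
    rw [Nat.mem_primeFactors]
    exact ⟨hT p hp.1, hp.2, by omega⟩
  have hone : ∀ p ∈ k.primeFactors, (1 : ℝ) ≤ (p : ℝ) / (p - 1) := by
    intro p hp
    have hpp := Nat.prime_of_mem_primeFactors hp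
    have h1 : (1 : ℝ) < p := by exact_mod_cast hpp.one_lt
    rw [le_div_iff₀ (by linarith)]
    linarith
  rw [← Finset.prod_sdiff hsub]
  refine le_mul_of_one_le_left (Finset.prod_nonneg fun p hp => ?_) ?_
  · exact zero_le_one.trans (hone p (hsub hp))
  · have h2 : ∏ _p ∈ k.primeFactors \ T.filter (fun p => p ∣ k), (1 : ℝ) ≤
        ∏ p ∈ k.primeFactors \ T.filter (fun p => p ∣ k), ((p : ℝ) / (p - 1)) :=
      Finset.prod_le_prod (fun _ _ => zero_le_one) fun p hp => hone p (mem_sdiff.1 hp).1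
    rwa [Finset.prod_const_one] at h2

theorem cov_sg_le (w z k : ℕ) (hk : 1 ≤ k) :
    (cov (primorial w) 0 (k : ZMod (primorial w)) + 1) * sg w z k ≤ (k : ℝ) / Nat.totient k := by
  have h1 := cov_prod w k
  have h2 := sg_prod w z k
  have h3 : Disjoint (Pr w) ((Ioc w z).filter Nat.Prime) := by
    rw [Finset.disjoint_left]
    intro p hp hq
    unfold Pr at hp
    rw [mem_filter, mem_range] at hp
    rw [mem_filter, mem_Ioc] at hq
    omega
  refine le_trans (mul_le_mul h1 h2 (sg_nonneg _ _ _) ((cov_nonneg _ _ _).trans h1)) ?_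
  rw [← Finset.prod_union h3]
  refine prod_le_ratio _ (fun p hp => ?_) k hk
  rw [mem_union] at hp
  rcases hp with hp | hp
  · exact prm w p hp
  · exact (mem_filter.1 hp).2

theorem one_le_ratio (k : ℕ) (hk : 1 ≤ k) : (1 : ℝ) ≤ (k : ℝ) / Nat.totient k := by
  have h1 : (0 : ℝ) < Nat.totient k := by exact_mod_cast Nat.totient_pos.2 hk
  rw [le_div_iff₀ h1, one_mul]
  exact_mod_cast Nat.totient_le k

theorem cov_dist (w n m : ℕ) :
    cov (primorial w) (n : ZMod (primorial w)) (m : ZMod (primorial w)) =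
      cov (primorial w) 0 ((Nat.dist n m : ℕ) : ZMod (primorial w)) := by
  rcases le_total n m with h | h
  · rw [cov_stat, Nat.dist_eq_sub_of_le h, Nat.cast_sub h]
  · rw [cov_symm, cov_stat, Nat.dist_comm, Nat.dist_eq_sub_of_le h, Nat.cast_sub h]

end Pool.Agent.Q87.GC
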