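import Pool.Agent.Q145.GC.Spec3
import Pool.Agent.Q87.GC.Rat
import Pool.Agent.Q87.GC.Prs

/-! # Bounds for one pair -/

set_option autoImplicit false

namespace Pool.Agent.Q87.GC

open Finset Filter Topology Pool.Agent.Q145.GC

open scoped Classical

/-- the ratio `k / φ(k)` -/
noncomputable def rr (k : ℕ) : ℝ := (k : ℝ) / Nat.totient k

theorem sum_q {T : Type} [Fintype T] {q U V : T → ℝ} {N c a b : ℝ} (hN : 0 < N)
    (hq0 : ∀ t, 0 ≤ q t) (hq : ∀ t, q t ≤ 2 / N) (hq1 : ∑ t, q t = 1) (hU : ∀ t, 0 ≤ U t)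
    (hc : (∑ t, U t) / N = c) (ha : 0 ≤ a) (hV : ∀ t, V t ≤ a * U t + b) :
    ∑ t, q t * V t ≤ 2 * a * c + b := by
  have h1 : ∑ t, q t * V t ≤ ∑ t, (a * (2 / N * U t) + q t * b) := by
    refine Finset.sum_le_sum fun t _ => ?_
    calc q t * V t ≤ q t * (a * U t + b) := mul_le_mul_of_nonneg_left (hV t) (hq0 t)
      _ = a * (q t * U t) + q t * b := by ring
      _ ≤ a * (2 / N * U t) + q t * b := by
        have := mul_le_mul_of_nonneg_right (hq t) (hU t)
        have := mul_le_mul_of_nonneg_left this ha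
        linarith
  refine h1.trans (le_of_eq ?_)
  rw [Finset.sum_add_distrib, ← Finset.mul_sum, ← Finset.mul_sum, ← Finset.sum_mul, hq1, ← hc]
  field_simp

theorem un_nonneg {W : ℕ} (c : ZMod W) : 0 ≤ un c := by
  unfold un
  split_ifs <;> norm_num

theorem un_le_one {W : ℕ} (c : ZMod W) : un c ≤ 1 := by
  unfold un
  split_ifs <;> norm_num

theorem prod_close {x y x' y' e β : ℝ} (hx : |x - x'| ≤ e) (hy : |y - y'| ≤ e) (hx' : |x'| ≤ β)
    (hy' : |y'| ≤ β) : |x * y - x' * y'| ≤ e * (2 * β + e) := by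
  have he : 0 ≤ e := (abs_nonneg _).trans hx
  have h1 : x * y - x' * y' = (x - x') * (y - y') + (x - x') * y' + x' * (y - y') := by ring
  have h2 : |(x - x') * (y - y')| ≤ e * e := by
    rw [abs_mul]
    exact mul_le_mul hx hy (abs_nonneg _) he
  have h3 : |(x - x') * y'| ≤ e * β := by
    rw [abs_mul]
    exact mul_le_mul hx hy' (abs_nonneg _) he
  have h4 : |x' * (y - y')| ≤ β * e := by
    rw [abs_mul]
    exact mul_le_mul hx' hy (abs_nonneg _) ((abs_nonneg _).trans hx')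
  rw [h1]
  refine (abs_add_le _ _).trans ?_
  have h5 := abs_add_le ((x - x') * (y - y')) ((x - x') * y')
  linarith

theorem pair (h1 : S_Th) (h2 : S_Cl) (h5 : S_Qd) (w : ℕ) {δ : ℝ} (hδ : 0 < δ) (hδ1 : δ ≤ 1) :
    ∃ Y₀ : ℕ, ∀ Y : ℕ, Y₀ ≤ Y → 1 ≤ Y ∧ 1 ≤ Real.log Y ∧ ∀ n ∈ Icc 1 Y, ∀ m ∈ Icc 1 Y, n ≠ m →
      Real.log Y ^ 2 * ∑ t, jp (Icc 1 Y) (ta (primorial w)) Rp {n, m} t ≤
        3 * rr (Nat.dist n m) ∧
      ∀ (z : ℕ) (ε : ℝ), 0 ≤ ε → ε ≤ 1 → (∀ t : ZMod (primorial w),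
        |Real.log Y ^ 2 * dn Y (primorial w) t (fun s => (n + s).Prime ∧ (m + s).Prime) -
          bta (primorial w) ^ 2 * un ((n : ZMod (primorial w)) + t) *
            un ((m : ZMod (primorial w)) + t) * sg w z (Nat.dist n m)| ≤ ε) →
        Real.log Y ^ 2 * ∑ t, jn (Icc 1 Y) (ta (primorial w)) Rp {n, m} t ≤
          3 * rr (Nat.dist n m) ∧
        Real.log Y ^ 2 * d2 (Icc 1 Y) (ta (primorial w)) Rp {n, m} ≤
          2 * (rr (Nat.dist n m) * |sg w z (Nat.dist n m) - 1|) + ε + δ := by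
  obtain ⟨C, Y₁, hC⟩ := h1
  obtain ⟨Y₂, hY₂⟩ := h2 (primorial w) 2
  set W : ℕ := primorial w with hW
  have hW0 : (0 : ℝ) < W := W_pos
  set β : ℝ := bta W with hβ
  have hβ0 : 0 ≤ β := by
    rw [hβ]
    unfold bta
    positivity
  set D : ℝ := max C 0 with hD
  have hD0 : 0 ≤ D := le_max_right _ _
  have topL : Tendsto (fun Y : ℕ => Real.log Y) atTop atTop :=
    Real.tendsto_log_atTop.comp tendsto_natCast_atTop_atTop
  have he : Tendsto (fun Y : ℕ => (1 + β * D) / Real.log Y * (2 * β + (1 + β * D) / Real.log Y))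
      atTop (𝓝 0) := by
    have h3 : Tendsto (fun Y : ℕ => (1 + β * D) / Real.log Y) atTop (𝓝 0) :=
      tendsto_const_nhds.div_atTop topL
    have h4 := h3.mul (h3.const_add (2 * β))
    rwa [zero_mul] at h4
  have hev : ∀ᶠ Y : ℕ in atTop, Y₁ ≤ Y ∧ Y₂ ≤ Y ∧ W ≤ Y ∧ 1 ≤ Y ∧ 1 ≤ Real.log Y ∧
      (1 + β * D) / Real.log Y * (2 * β + (1 + β * D) / Real.log Y) ≤ δ := by
    filter_upwards [eventually_ge_atTop Y₁, eventually_ge_atTop Y₂, eventually_ge_atTop W,
      eventually_ge_atTop 1, topL.eventually_ge_atTop 1, he.eventually (gt_mem_nhds hδ)] with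
      Y a1 a2 a3 a4 a5 a6
    exact ⟨a1, a2, a3, a4, a5, a6.le⟩
  obtain ⟨Y₀, hY₀⟩ := eventually_atTop.1 hev
  refine ⟨Y₀, fun Y hY => ?_⟩
  obtain ⟨g1, g2, g3, g4, g5, g6⟩ := hY₀ Y hY
  refine ⟨g4, g5, fun n hn m hm hnm => ?_⟩
  set L : ℝ := Real.log Y with hL
  have hL0 : 0 < L := by linarith
  have hYr : (0 : ℝ) < Y := by exact_mod_cast g4
  set e : ℝ := (1 + β * D) / L with hedef
  rw [mem_Icc] at hn hm
  set h := Nat.dist n m with hh
  have hh1 : 1 ≤ h := by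
    rw [hh]
    have : 0 < Nat.dist n m := Nat.dist_pos_of_ne hnm
    exact this
  obtain ⟨q1, q2, q3, q4⟩ := h5 W Y g4
  -- proportions
  set q : ZMod W → ℝ := fun t => qd (Icc 1 Y) (ta W) t with hq
  have hq0 : ∀ t, 0 ≤ q t := fun t => qd_nonneg _ _ _
  have hq2 : ∀ t, q t ≤ 2 / W := by
    intro t
    have a1 := (abs_le.1 (q1 t)).2
    have a2 : (1 : ℝ) / Y ≤ 1 / W := one_div_le_one_div_of_le hW0 (by exact_mod_cast g3)
    have a3 : (2 : ℝ) / W = 1 / W + 1 / W := by ring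
    rw [a3]
    change qd (Icc 1 Y) (ta W) t ≤ _
    linarith
  have hqs : ∑ t, q t = 1 := sum_qd (Icc 1 Y) ⟨1, mem_Icc.2 ⟨le_rfl, g4⟩⟩ (ta W)
  -- the main terms
  set U : ZMod W → ℝ := fun t => β ^ 2 * un ((n : ZMod W) + t) * un ((m : ZMod W) + t) with hU
  have hU0 : ∀ t, 0 ≤ U t := fun t =>
    mul_nonneg (mul_nonneg (sq_nonneg _) (un_nonneg _)) (un_nonneg _)
  set c : ℝ := cov W 0 ((h : ℕ) : ZMod W) + 1 with hc
  have hUc : (∑ t, U t) / W = c := by
    have hcd : cov W (n : ZMod W) (m : ZMod W) = cov W 0 ((h : ℕ) : ZMod W) := cov_dist w n m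
    rw [hc, ← hcd]
    unfold cov
    rw [sub_add_cancel, Finset.mul_sum]
    congr 1
    refine Finset.sum_congr rfl fun t _ => ?_
    rw [hU]
    simp only
    ring
  have hc0 : 0 ≤ c := cov_nonneg _ _ _
  have hcR : c ≤ rr h := Pool.Agent.Q121.GC.cov_le w h hh1
  have hR1 : 1 ≤ rr h := one_le_ratio h hh1
  have hR0 : 0 ≤ rr h := by linarith
  -- single densities
  have hx : ∀ (a : ℕ) (t : ZMod W), 1 ≤ a → a ≤ Y →
      |L * dn Y W t (fun s => (a + s).Prime) - β * un ((a : ZMod W) + t)| ≤ e := by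
    intro a t ha1 ha2
    have b1 := hY₂ Y g2 a ha1 ha2 t
    have b2 := hC Y g1 a ha1 ha2
    have b3 : |th Y a - 1 / L| ≤ D / L ^ 2 :=
      b2.trans (div_le_div_of_nonneg_right (le_max_left _ _) (by positivity))
    have b4 : L * dn Y W t (fun s => (a + s).Prime) - β * un ((a : ZMod W) + t) =
        L * (dn Y W t (fun s => (a + s).Prime) - th Y a * β * un ((a : ZMod W) + t)) +
          L * β * un ((a : ZMod W) + t) * (th Y a - 1 / L) := by
      field_simp
      ring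
    rw [b4]
    refine (abs_add_le _ _).trans ?_
    rw [abs_mul, abs_mul, abs_of_pos hL0, abs_of_nonneg (mul_nonneg (mul_nonneg hL0.le hβ0)
      (un_nonneg _))]
    have b5 : L * |dn Y W t (fun s => (a + s).Prime) - th Y a * β * un ((a : ZMod W) + t)| ≤
        L * (1 / L ^ 2) := mul_le_mul_of_nonneg_left b1 hL0.le
    have b6 : L * β * un ((a : ZMod W) + t) * |th Y a - 1 / L| ≤ L * β * 1 * (D / L ^ 2) := by
      refine mul_le_mul ?_ b3 (abs_nonneg _) (by positivity)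
      exact mul_le_mul_of_nonneg_left (un_le_one _) (by positivity)
    have b7 : L * (1 / L ^ 2) + L * β * 1 * (D / L ^ 2) = e := by
      rw [hedef]
      field_simp
    linarith
  have hun : ∀ (a : ℕ) (t : ZMod W), |β * un ((a : ZMod W) + t)| ≤ β := by
    intro a t
    rw [abs_of_nonneg (mul_nonneg hβ0 (un_nonneg _))]
    calc β * un ((a : ZMod W) + t) ≤ β * 1 := mul_le_mul_of_nonneg_left (un_le_one _) hβ0
      _ = β := mul_one _
  -- pairs of densities
  set P : ZMod W → ℝ := fun t => L ^ 2 * (dn Y W t (fun s => (n + s).Prime) *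
    dn Y W t (fun s => (m + s).Prime)) with hP
  set J : ZMod W → ℝ := fun t => L ^ 2 * dn Y W t (fun s => (n + s).Prime ∧ (m + s).Prime) with hJ
  have hPU : ∀ t, |P t - U t| ≤ δ := by
    intro t
    have b1 := prod_close (hx n t hn.1 hn.2) (hx m t hm.1 hm.2) (hun n t) (hun m t)
    have b2 : P t - U t = L * dn Y W t (fun s => (n + s).Prime) *
        (L * dn Y W t (fun s => (m + s).Prime)) - β * un ((n : ZMod W) + t) *
          (β * un ((m : ZMod W) + t)) := by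
      rw [hP, hU]
      ring
    rw [b2]
    exact b1.trans g6
  have hjp : ∀ t, L ^ 2 * jp (Icc 1 Y) (ta W) Rp {n, m} t = q t * P t := by
    intro t
    rw [q4 n m t hnm, hP]
    simp only
    rw [hq]
    ring
  have hjn : ∀ t, L ^ 2 * jn (Icc 1 Y) (ta W) Rp {n, m} t = q t * J t := by
    intro t
    rw [q3 n m t hnm, hJ]
    simp only
    rw [hq]
    ring
  refine ⟨?_, fun z ε hε hε1 hgood => ?_⟩
  · rw [Finset.mul_sum, Finset.sum_congr rfl fun t _ => hjp t]
    have b1 := sum_q hW0 hq0 hq2 hqs hU0 hUc (a := 1) (b := δ) zero_le_one (V := P) fun t => by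
      have := (abs_le.1 (hPU t)).2
      linarith
    linarith
  · set s : ℝ := sg w z h with hs
    have hs0 : 0 ≤ s := sg_nonneg _ _ _
    have hcs : c * s ≤ rr h := cov_sg_le w z h hh1
    have hJU : ∀ t, |J t - U t * s| ≤ ε := hgood
    constructor
    · rw [Finset.mul_sum, Finset.sum_congr rfl fun t _ => hjn t]
      have b1 := sum_q hW0 hq0 hq2 hqs hU0 hUc (a := s) (b := ε) hs0 (V := J) fun t => by
        have := (abs_le.1 (hJU t)).2
        linarith
      nlinarith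
    · unfold d2
      rw [Finset.mul_sum]
      have b2 : ∀ t, L ^ 2 * |jn (Icc 1 Y) (ta W) Rp {n, m} t - jp (Icc 1 Y) (ta W) Rp {n, m} t| =
          q t * |J t - P t| := by
        intro t
        have b7 : q t * |J t - P t| = |q t * (J t - P t)| := by
          rw [abs_mul, abs_of_nonneg (hq0 t)]
        have b8 : (0 : ℝ) ≤ L ^ 2 := by positivity
        rw [b7, mul_sub, ← hjn, ← hjp, ← mul_sub, abs_mul, abs_of_nonneg b8]
      rw [Finset.sum_congr rfl fun t _ => b2 t]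
      have b1 := sum_q hW0 hq0 hq2 hqs hU0 hUc (a := |s - 1|) (b := ε + δ) (abs_nonneg _)
        (V := fun t => |J t - P t|) fun t => by
          have b3 : J t - P t = (J t - U t * s) + U t * (s - 1) - (P t - U t) := by ring
          have b4 : |U t * (s - 1)| = |s - 1| * U t := by
            rw [abs_mul, abs_of_nonneg (hU0 t), mul_comm]
          rw [b3]
          refine (abs_sub _ _).trans ?_
          have b5 := abs_add_le (J t - U t * s) (U t * (s - 1))
          linarith [hJU t, hPU t]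
      have b6 : |s - 1| * c ≤ |s - 1| * rr h := mul_le_mul_of_nonneg_left hcR (abs_nonneg _)
      nlinarith

theorem bad_pair (hS : ∃ C : ℝ, 0 < C ∧ ∃ Y₀ : ℕ, ∀ Y : ℕ, Y₀ ≤ Y → ∀ H : Finset ℕ, H.card = 2 →
    (∀ n ∈ H, n ≤ Y) → (((Icc 1 Y).filter (fun a => ∀ n ∈ H, (n + a).Prime)).card : ℝ) ≤
      C * Real.log (Real.log Y) ^ (2 - 1) / Real.log Y ^ 2 * Y) :
    ∃ C : ℝ, 0 < C ∧ ∃ Y₀ : ℕ, ∀ Y : ℕ, Y₀ ≤ Y → ∀ w : ℕ, ∀ n ∈ Icc 1 Y, ∀ m ∈ Icc 1 Y, n ≠ m →
      Real.log Y ^ 2 * ∑ t, jn (Icc 1 Y) (ta (primorial w)) Rp {n, m} t ≤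
        C * Real.log (Real.log Y) := by
  obtain ⟨C, hC, Y₀, h⟩ := hS
  have topL : Tendsto (fun Y : ℕ => Real.log Y) atTop atTop :=
    Real.tendsto_log_atTop.comp tendsto_natCast_atTop_atTop
  obtain ⟨Y₁, hY₁⟩ := eventually_atTop.1 ((topL.eventually_ge_atTop 1).and
    (eventually_ge_atTop 1))
  refine ⟨C, hC, max Y₀ Y₁, fun Y hY w n hn m hm hnm => ?_⟩
  obtain ⟨g1, g2⟩ := hY₁ Y ((le_max_right _ _).trans hY)
  have hYr : (0 : ℝ) < Y := by exact_mod_cast g2
  have hL0 : 0 < Real.log Y := by linarith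
  rw [mem_Icc] at hn hm
  have h1 := h Y ((le_max_left _ _).trans hY) {n, m} (card_pair hnm) (by
    intro a ha
    rw [mem_insert, mem_singleton] at ha
    rcases ha with rfl | rfl
    · exact hn.2
    · exact hm.2)
  have h2 : ∑ t, jn (Icc 1 Y) (ta (primorial w)) Rp {n, m} t =
      (((Icc 1 Y).filter (fun a => ∀ n' ∈ ({n, m} : Finset ℕ), (n' + a).Prime)).card : ℝ) / Y := by
    have e := sum_cl (Icc 1 Y) (ta (primorial w)) (fun s => ∀ n' ∈ ({n, m} : Finset ℕ), Rp n' s)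
    unfold jn
    rw [← Finset.sum_div, Nat.card_Icc, Nat.add_sub_cancel]
    congr 1
    unfold Rp at e ⊢
    convert e
  rw [h2]
  have h3 : Real.log Y ^ 2 * ((((Icc 1 Y).filter
      (fun a => ∀ n' ∈ ({n, m} : Finset ℕ), (n' + a).Prime)).card : ℝ) / Y) ≤
      Real.log Y ^ 2 * (C * Real.log (Real.log Y) ^ (2 - 1) / Real.log Y ^ 2 * Y / Y) :=
    mul_le_mul_of_nonneg_left (div_le_div_of_nonneg_right h1 hYr.le) (by positivity)
  refine h3.trans (le_of_eq ?_)
  rw [show (2 - 1 : ℕ) = 1 from rfl, pow_one]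
  field_simp

end Pool.Agent.Q87.GC
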