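import Pool.Agent.Q87.GC.Coup

/-! # Second moments of the total masses on two levels -/

set_option autoImplicit false

namespace Pool.Agent.Q87.GC

open Finset MeasureTheory ProbabilityTheory Filter Topology Pool.Agent.Q145.GC

section sec

variable {ι ι' : Type} [Fintype ι] [DecidableEq ι] [Fintype ι'] [DecidableEq ι']

/-- the total mass for a covariance matrix with diagonal `s` -/
noncomputable def mm (ρ s N : ℝ) (g : EuclideanSpace ℝ ι) : ℝ :=
  (∑ c, Real.exp (√ρ * g c - ρ * s / 2)) / N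

omit [DecidableEq ι] in
theorem continuous_mm (ρ s N : ℝ) : Continuous (mm ρ s N : EuclideanSpace ℝ ι → ℝ) := by
  unfold mm
  fun_prop

omit [DecidableEq ι] in
theorem mm_nonneg {ρ s N : ℝ} (hN : 0 ≤ N) (g : EuclideanSpace ℝ ι) : 0 ≤ mm ρ s N g :=
  div_nonneg (Finset.sum_nonneg fun _ _ => (Real.exp_pos _).le) hN

theorem exp_pair (hE : S_Exp) {S : Matrix ι ι ℝ} (hS : S.PosSemidef) {ρ : ℝ} (hρ : 0 ≤ ρ)
    (c d : ι) :
    Integrable (fun g : EuclideanSpace ℝ ι => Real.exp (√ρ * g c + √ρ * g d))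
      (multivariateGaussian 0 S) ∧
    ∫ g : EuclideanSpace ℝ ι, Real.exp (√ρ * g c + √ρ * g d) ∂(multivariateGaussian 0 S) =
      Real.exp (ρ * (S c c + S c d + S d c + S d d) / 2) := by
  have h := hE ι S hS (fun i => √ρ * ((if i = c then 1 else 0) + (if i = d then 1 else 0)))
  have h1 : ∀ g : EuclideanSpace ℝ ι,
      ∑ i, √ρ * ((if i = c then (1 : ℝ) else 0) + (if i = d then 1 else 0)) * g i =
        √ρ * g c + √ρ * g d := by
    intro g
    simp only [mul_add, add_mul, Finset.sum_add_distrib, mul_ite, mul_one, mul_zero, ite_mul,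
      zero_mul, Finset.sum_ite_eq', Finset.mem_univ, if_true]
  have h2 : ∑ i, ∑ j, √ρ * ((if i = c then (1 : ℝ) else 0) + (if i = d then 1 else 0)) *
      (√ρ * ((if j = c then (1 : ℝ) else 0) + (if j = d then 1 else 0))) * S i j =
        ρ * (S c c + S c d + S d c + S d d) := by
    have h3 : ∀ i j, √ρ * ((if i = c then (1 : ℝ) else 0) + (if i = d then 1 else 0)) *
      (√ρ * ((if j = c then (1 : ℝ) else 0) + (if j = d then 1 else 0))) * S i j =
        ρ * (((if i = c then (1 : ℝ) else 0) + (if i = d then 1 else 0)) *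
          (((if j = c then (1 : ℝ) else 0) + (if j = d then 1 else 0)) * S i j)) := by
      intro i j
      have h4 : √ρ * √ρ = ρ := Real.mul_self_sqrt hρ
      linear_combination (((if i = c then (1 : ℝ) else 0) + (if i = d then 1 else 0)) *
          (((if j = c then (1 : ℝ) else 0) + (if j = d then 1 else 0)) * S i j)) * h4
    simp_rw [h3, ← Finset.mul_sum]
    congr 1
    simp only [add_mul, Finset.sum_add_distrib, ite_mul, one_mul, zero_mul,
      Finset.sum_ite_eq', Finset.mem_univ, if_true]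
    ring
  simp only [h1, h2] at h
  exact h

theorem exp_one (hE : S_Exp) {S : Matrix ι ι ℝ} (hS : S.PosSemidef) {ρ : ℝ} (hρ : 0 ≤ ρ)
    (c : ι) :
    Integrable (fun g : EuclideanSpace ℝ ι => Real.exp (√ρ * g c))
      (multivariateGaussian 0 S) ∧
    ∫ g : EuclideanSpace ℝ ι, Real.exp (√ρ * g c) ∂(multivariateGaussian 0 S) =
      Real.exp (ρ * S c c / 2) := by
  have h := hE ι S hS (fun i => √ρ * (if i = c then 1 else 0))
  have h1 : ∀ g : EuclideanSpace ℝ ι,
      ∑ i, √ρ * (if i = c then (1 : ℝ) else 0) * g i = √ρ * g c := by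
    intro g
    simp only [mul_ite, mul_one, mul_zero, ite_mul,
      zero_mul, Finset.sum_ite_eq', Finset.mem_univ, if_true]
  have h2 : ∑ i, ∑ j, √ρ * (if i = c then (1 : ℝ) else 0) *
      (√ρ * (if j = c then (1 : ℝ) else 0)) * S i j = ρ * S c c := by
    have h3 : ∀ i j, √ρ * (if i = c then (1 : ℝ) else 0) *
      (√ρ * (if j = c then (1 : ℝ) else 0)) * S i j =
        ρ * ((if i = c then (1 : ℝ) else 0) * ((if j = c then (1 : ℝ) else 0) * S i j)) := by
      intro i j
      have h4 : √ρ * √ρ = ρ := Real.mul_self_sqrt hρ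
      linear_combination ((if i = c then (1 : ℝ) else 0) *
          ((if j = c then (1 : ℝ) else 0) * S i j)) * h4
    simp_rw [h3, ← Finset.mul_sum]
    congr 1
    simp only [ite_mul, one_mul, zero_mul,
      Finset.sum_ite_eq', Finset.mem_univ, if_true]
  simp only [h1, h2] at h
  exact h

/-- the second moment of the total mass -/
theorem mm_sq (hE : S_Exp) {S : Matrix ι ι ℝ} (hS : S.PosSemidef) {ρ : ℝ} (hρ : 0 ≤ ρ)
    {s V : ℝ} [Nonempty ι] (hs : ∀ c, S c c = s) (hsym : ∀ c d, S c d = S d c)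
    (hV : ∀ a, ∑ c, Real.exp (ρ * S a c) = V * Fintype.card ι) :
    Integrable (fun g : EuclideanSpace ℝ ι => mm ρ s (Fintype.card ι) g ^ 2)
      (multivariateGaussian 0 S) ∧
    ∫ g : EuclideanSpace ℝ ι, mm ρ s (Fintype.card ι) g ^ 2 ∂(multivariateGaussian 0 S) = V := by
  have hcard : (Fintype.card ι : ℝ) ≠ 0 := by exact_mod_cast Fintype.card_ne_zero
  have h1 : ∀ g : EuclideanSpace ℝ ι, mm ρ s (Fintype.card ι) g ^ 2 =
      ∑ c, ∑ d, (Real.exp (-(ρ * s)) / (Fintype.card ι : ℝ) ^ 2) *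
        Real.exp (√ρ * g c + √ρ * g d) := by
    intro g
    unfold mm
    rw [div_pow, sq (∑ c, Real.exp (√ρ * g c - ρ * s / 2)), Finset.sum_mul_sum, Finset.sum_div]
    refine Finset.sum_congr rfl fun c _ => ?_
    rw [Finset.sum_div]
    refine Finset.sum_congr rfl fun d _ => ?_
    rw [← Real.exp_add, div_mul_eq_mul_div, ← Real.exp_add]
    congr 2
    ring
  simp_rw [h1]
  constructor
  · exact integrable_finsetSum _ fun c _ => integrable_finsetSum _ fun d _ =>
      ((exp_pair hE hS hρ c d).1).const_mul _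
  · rw [integral_finsetSum _ fun c _ => integrable_finsetSum _ fun d _ =>
      ((exp_pair hE hS hρ c d).1).const_mul _]
    have h2 : ∀ c, ∫ g : EuclideanSpace ℝ ι, ∑ d, (Real.exp (-(ρ * s)) /
        (Fintype.card ι : ℝ) ^ 2) * Real.exp (√ρ * g c + √ρ * g d) ∂(multivariateGaussian 0 S) =
        ∑ d, Real.exp (ρ * S c d) / (Fintype.card ι : ℝ) ^ 2 := by
      intro c
      rw [integral_finsetSum _ fun d _ => ((exp_pair hE hS hρ c d).1).const_mul _]
      refine Finset.sum_congr rfl fun d _ => ?_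
      rw [integral_const_mul, (exp_pair hE hS hρ c d).2, div_mul_eq_mul_div, ← Real.exp_add, hs, hs,
        hsym d c]
      congr 2
      ring
    simp_rw [h2, ← Finset.sum_div, hV]
    rw [Finset.sum_const, Finset.card_univ, nsmul_eq_mul]
    field_simp

/-- the mixed second moment -/
theorem mm_mixed (hE : S_Exp) {S : Matrix ι ι ℝ} {D : Matrix ι' ι' ℝ} (hS : S.PosSemidef)
    (hD : D.PosSemidef) {ρ : ℝ} (hρ : 0 ≤ ρ) (π : ι' → ι)
    {s s' V : ℝ} [Nonempty ι] [Nonempty ι'] (hs : ∀ c, S c c = s) (hsym : ∀ c d, S c d = S d c)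
    (hd : ∀ c, D c c = s' - s)
    (hV : ∀ a, ∑ c, Real.exp (ρ * S a c) = V * Fintype.card ι) :
    Integrable (fun q : EuclideanSpace ℝ ι × EuclideanSpace ℝ ι' =>
        mm ρ s' (Fintype.card ι') (T π q) * mm ρ s (Fintype.card ι) q.1)
      ((multivariateGaussian 0 S).prod (multivariateGaussian 0 D)) ∧
    ∫ q : EuclideanSpace ℝ ι × EuclideanSpace ℝ ι',
      mm ρ s' (Fintype.card ι') (T π q) * mm ρ s (Fintype.card ι) q.1
        ∂((multivariateGaussian 0 S).prod (multivariateGaussian 0 D)) = V := by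
  have hcard : (Fintype.card ι : ℝ) ≠ 0 := by exact_mod_cast Fintype.card_ne_zero
  have hcard' : (Fintype.card ι' : ℝ) ≠ 0 := by exact_mod_cast Fintype.card_ne_zero
  set K : ℝ := Real.exp (-(ρ * s / 2) - ρ * s' / 2) /
    ((Fintype.card ι' : ℝ) * (Fintype.card ι : ℝ)) with hK
  have h1 : ∀ q : EuclideanSpace ℝ ι × EuclideanSpace ℝ ι',
      mm ρ s' (Fintype.card ι') (T π q) * mm ρ s (Fintype.card ι) q.1 =
      ∑ c', ∑ c, K * (Real.exp (√ρ * q.1 (π c') + √ρ * q.1 c) * Real.exp (√ρ * q.2 c')) := by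
    intro q
    unfold mm
    rw [div_mul_div_comm, Finset.sum_mul_sum, Finset.sum_div]
    refine Finset.sum_congr rfl fun c' _ => ?_
    rw [Finset.sum_div]
    refine Finset.sum_congr rfl fun c _ => ?_
    rw [← Real.exp_add, ← Real.exp_add, hK, div_mul_eq_mul_div, ← Real.exp_add, T_apply]
    congr 2
    ring
  have hint : ∀ c' c, Integrable (fun q : EuclideanSpace ℝ ι × EuclideanSpace ℝ ι' =>
      K * (Real.exp (√ρ * q.1 (π c') + √ρ * q.1 c) * Real.exp (√ρ * q.2 c')))
      ((multivariateGaussian 0 S).prod (multivariateGaussian 0 D)) := fun c' c =>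
    ((exp_pair hE hS hρ (π c') c).1.mul_prod (exp_one hE hD hρ c').1).const_mul K
  simp_rw [h1]
  constructor
  · exact integrable_finsetSum _ fun c' _ => integrable_finsetSum _ fun c _ => hint c' c
  · rw [integral_finsetSum _ fun c' _ => integrable_finsetSum _ fun c _ => hint c' c]
    have h2 : ∀ c', ∫ q : EuclideanSpace ℝ ι × EuclideanSpace ℝ ι',
        ∑ c, K * (Real.exp (√ρ * q.1 (π c') + √ρ * q.1 c) * Real.exp (√ρ * q.2 c'))
        ∂((multivariateGaussian 0 S).prod (multivariateGaussian 0 D)) =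
        ∑ c, Real.exp (ρ * S (π c') c) / ((Fintype.card ι' : ℝ) * (Fintype.card ι : ℝ)) := by
      intro c'
      rw [integral_finsetSum _ fun c _ => hint c' c]
      refine Finset.sum_congr rfl fun c _ => ?_
      rw [integral_const_mul, integral_prod_mul
        (fun g : EuclideanSpace ℝ ι => Real.exp (√ρ * g (π c') + √ρ * g c))
        (fun g : EuclideanSpace ℝ ι' => Real.exp (√ρ * g c')),
        (exp_pair hE hS hρ (π c') c).2, (exp_one hE hD hρ c').2, hK, div_mul_eq_mul_div,
        ← Real.exp_add, ← Real.exp_add, hs, hs, hsym c (π c'), hd]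
      congr 2
      ring
    simp_rw [h2, ← Finset.sum_div, hV]
    rw [Finset.sum_const, Finset.card_univ, nsmul_eq_mul]
    field_simp

end sec

end Pool.Agent.Q87.GC
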