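import Pool.Agent.Q87.GC.Prb

/-! # Sums over all pairs -/

set_option autoImplicit false

namespace Pool.Agent.Q87.GC

open Finset Filter Topology Pool.Agent.Q145.GC

open scoped Classical

/-- the upper bound of the sieve for pairs -/
def S_Shf : Prop := ∃ C : ℝ, 0 < C ∧ ∃ Y₀ : ℕ, ∀ Y : ℕ, Y₀ ≤ Y → ∀ H : Finset ℕ, H.card = 2 →
    (∀ n ∈ H, n ≤ Y) → (((Icc 1 Y).filter (fun a => ∀ n ∈ H, (n + a).Prime)).card : ℝ) ≤
      C * Real.log (Real.log Y) ^ (2 - 1) / Real.log Y ^ 2 * Y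

theorem c2_split {T : Type} [Fintype T] (S : Finset ℕ) (τ : ℕ → T) (R : ℕ → ℕ → Prop)
    (A : Finset ℕ) : c2 S τ R A = ∑ t, jn S τ R A t + ∑ t, jp S τ R A t := by
  unfold c2
  rw [Finset.sum_add_distrib]

theorem mul_le_two {K L c b : ℝ} (hK : K ≤ 2 * L ^ 2) (hc : 0 ≤ c) (hb : L ^ 2 * c ≤ b) :
    K * c ≤ 2 * b := by
  calc K * c ≤ 2 * L ^ 2 * c := mul_le_mul_of_nonneg_right hK hc
    _ = 2 * (L ^ 2 * c) := by ring
    _ ≤ 2 * b := by linarith

theorem rr_nonneg (k : ℕ) : 0 ≤ rr k := by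
  unfold rr
  positivity

theorem uex' (hS : S_Shf) (h1 : S_Th) (h2 : S_Cl) (h3 : S_Hl) (h4 : S_Em) (h5 : S_Qd) :
    S_Uex := by
  intro B hB
  obtain ⟨C₂, hC₂, Y₂, hbad⟩ := bad_pair hS
  obtain ⟨E, hE⟩ := h4 (12 * B)
  refine ⟨2 * E + 1, fun w => ?_⟩
  obtain ⟨Y₁, z, hz, hHl⟩ := h3 w ⌈4 * B * C₂⌉₊ 1 one_pos
  obtain ⟨Y₃, hpair⟩ := pair h1 h2 h5 w (δ := 1) one_pos le_rfl
  refine ⟨max (max Y₁ Y₂) Y₃, fun Y hY K hK => ?_⟩
  have g1 : Y₁ ≤ Y := ((le_max_left _ _).trans (le_max_left _ _)).trans hY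
  have g2 : Y₂ ≤ Y := ((le_max_right _ _).trans (le_max_left _ _)).trans hY
  have g3 : Y₃ ≤ Y := (le_max_right _ _).trans hY
  obtain ⟨hY1, hL1, hp⟩ := hpair Y g3
  have hYr : (0 : ℝ) < Y := by exact_mod_cast hY1
  set L : ℝ := Real.log Y with hL
  have hL0 : 0 < L := by linarith
  have hl0 : 0 ≤ Real.log L := Real.log_nonneg hL1
  have hHb := hHl Y g1
  set bad : Finset (ℕ × ℕ) := (Icc 1 Y ×ˢ Icc 1 Y).filter (fun q : ℕ × ℕ => q.1 ≠ q.2 ∧
    ¬ ∀ t : ZMod (primorial w),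
    |Real.log Y ^ 2 * dn Y (primorial w) t (fun s => (q.1 + s).Prime ∧ (q.2 + s).Prime) -
      bta (primorial w) ^ 2 * un ((q.1 : ZMod (primorial w)) + t) *
        un ((q.2 : ZMod (primorial w)) + t) * sg w (z Y) (Nat.dist q.1 q.2)| ≤ 1) with hbd
  have main := sum_pairs_le Y
    (fun A => Real.exp (B * (K * c2 (Icc 1 Y) (ta (primorial w)) Rp A)))
    (fun h => Real.exp (12 * B * rr h)) (Real.exp (4 * B * C₂ * Real.log L)) bad
    (fun h => (Real.exp_pos _).le) (Real.exp_pos _).le (fun A => (Real.exp_pos _).le)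
    (fun n hn m hm hnm => by
      obtain ⟨p1, p2⟩ := hp n hn m hm hnm
      have hc0 := c2_nonneg (Icc 1 Y) (ta (primorial w)) Rp ({n, m} : Finset ℕ)
      have hcs := c2_split (Icc 1 Y) (ta (primorial w)) Rp ({n, m} : Finset ℕ)
      by_cases hq : (n, m) ∈ bad
      · rw [if_pos hq]
        have b1 := hbad Y g2 w n hn m hm hnm
        have b2 : L ^ 2 * c2 (Icc 1 Y) (ta (primorial w)) Rp {n, m} ≤
            C₂ * Real.log L + 3 * rr (Nat.dist n m) := by
          rw [hcs, mul_add]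
          exact add_le_add b1 p1
        have b3 := mul_le_two hK hc0 b2
        have b4 : B * (K * c2 (Icc 1 Y) (ta (primorial w)) Rp {n, m}) ≤
            B * (2 * (C₂ * Real.log L + 3 * rr (Nat.dist n m))) :=
          mul_le_mul_of_nonneg_left b3 hB.le
        rcases le_total (12 * B * rr (Nat.dist n m)) (4 * B * C₂ * Real.log L) with b5 | b5
        · have b6 : Real.exp (B * (K * c2 (Icc 1 Y) (ta (primorial w)) Rp {n, m})) ≤
              Real.exp (4 * B * C₂ * Real.log L) := Real.exp_le_exp.2 (by linarith)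
          linarith [(Real.exp_pos (12 * B * rr (Nat.dist n m))).le]
        · have b6 : Real.exp (B * (K * c2 (Icc 1 Y) (ta (primorial w)) Rp {n, m})) ≤
              Real.exp (12 * B * rr (Nat.dist n m)) := Real.exp_le_exp.2 (by linarith)
          linarith [(Real.exp_pos (4 * B * C₂ * Real.log L)).le]
      · rw [if_neg hq, add_zero]
        have b0 : ∀ t : ZMod (primorial w),
            |Real.log Y ^ 2 * dn Y (primorial w) t (fun s => (n + s).Prime ∧ (m + s).Prime) -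
            bta (primorial w) ^ 2 * un ((n : ZMod (primorial w)) + t) *
            un ((m : ZMod (primorial w)) + t) * sg w (z Y) (Nat.dist n m)| ≤ 1 := by
          by_contra hcon
          exact hq (mem_filter.2 ⟨mem_product.2 ⟨hn, hm⟩, hnm, hcon⟩)
        obtain ⟨b1, -⟩ := p2 (z Y) 1 zero_le_one le_rfl b0
        have b2 : L ^ 2 * c2 (Icc 1 Y) (ta (primorial w)) Rp {n, m} ≤
            3 * rr (Nat.dist n m) + 3 * rr (Nat.dist n m) := by
          rw [hcs, mul_add]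
          exact add_le_add b1 p1
        have b3 := mul_le_two hK hc0 b2
        have b4 : B * (K * c2 (Icc 1 Y) (ta (primorial w)) Rp {n, m}) ≤
            B * (2 * (3 * rr (Nat.dist n m) + 3 * rr (Nat.dist n m))) :=
          mul_le_mul_of_nonneg_left b3 hB.le
        exact Real.exp_le_exp.2 (by linarith))
  refine main.trans ?_
  have e1 : ∑ h ∈ Icc 1 Y, Real.exp (12 * B * rr h) ≤ E * Y := hE Y
  have e2 : Real.exp (4 * B * C₂ * Real.log L) * (bad.card : ℝ) ≤ (Y : ℝ) ^ 2 := by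
    have e3 : Real.exp (4 * B * C₂ * Real.log L) ≤ L ^ ⌈4 * B * C₂⌉₊ := by
      rw [← Real.exp_log (show 0 < L ^ ⌈4 * B * C₂⌉₊ by positivity), Real.log_pow]
      exact Real.exp_le_exp.2 (mul_le_mul_of_nonneg_right (Nat.le_ceil _) hl0)
    calc Real.exp (4 * B * C₂ * Real.log L) * (bad.card : ℝ) ≤
          L ^ ⌈4 * B * C₂⌉₊ * ((Y : ℝ) ^ 2 / L ^ ⌈4 * B * C₂⌉₊) :=
          mul_le_mul e3 hHb (Nat.cast_nonneg _) (by positivity)
      _ = (Y : ℝ) ^ 2 := by field_simp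
  nlinarith

theorem utwo' (hS : S_Shf) (h1 : S_Th) (h2 : S_Cl) (h3 : S_Hl) (h4 : S_Em) (h5 : S_Qd)
    (h6 : S_Per) : S_Utwo := by
  intro η hη
  obtain ⟨C₂, hC₂, Y₂, hbad⟩ := bad_pair hS
  obtain ⟨E₀, hE₀⟩ := h4 1
  set E : ℝ := max E₀ 1 with hEdef
  have hE1 : 1 ≤ E := le_max_right _ _
  obtain ⟨w₀, hw₀⟩ := h6 (η / 64) (by positivity)
  refine ⟨w₀, fun w hw => ?_⟩
  set ε : ℝ := min (η / 64) 1 with hεdef
  have hε0 : 0 < ε := lt_min (by positivity) one_pos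
  have hε1 : ε ≤ 1 := min_le_right _ _
  have hεη : ε ≤ η / 64 := min_le_left _ _
  set κ : ℝ := η / (96 * E) with hκdef
  have hκ0 : 0 < κ := by positivity
  have hκE : 12 * (κ * E) = η / 8 := by
    rw [hκdef]
    field_simp
    norm_num
  obtain ⟨Y₁, z, hz, hHl⟩ := h3 w 1 ε hε0
  obtain ⟨Y₃, hpair⟩ := pair h1 h2 h5 w hε0 hε1
  have topL : Tendsto (fun Y : ℕ => Real.log Y) atTop atTop :=
    Real.tendsto_log_atTop.comp tendsto_natCast_atTop_atTop
  have hsm : Tendsto (fun Y : ℕ => 3 / κ * (1 / Real.log Y) +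
      2 * C₂ * (Real.log (Real.log Y) / Real.log Y)) atTop (𝓝 0) := by
    have z1 : Tendsto (fun y : ℝ => Real.log y / y) atTop (𝓝 0) :=
      Real.isLittleO_log_id_atTop.tendsto_div_nhds_zero
    have z2 : Tendsto (fun y : ℝ => 1 / y) atTop (𝓝 0) := tendsto_const_nhds.div_atTop tendsto_id
    have z3 := ((z2.comp topL).const_mul (3 / κ)).add ((z1.comp topL).const_mul (2 * C₂))
    simp only [mul_zero, add_zero] at z3
    exact z3
  obtain ⟨Y₄, hY₄⟩ := eventually_atTop.1 (hsm.eventually (gt_mem_nhds (show 0 < η / 4 by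
    positivity)))
  refine ⟨max (max Y₁ Y₂) (max Y₃ Y₄), fun Y hY K hK => ?_⟩
  have g1 : Y₁ ≤ Y := ((le_max_left _ _).trans (le_max_left _ _)).trans hY
  have g2 : Y₂ ≤ Y := ((le_max_right _ _).trans (le_max_left _ _)).trans hY
  have g3 : Y₃ ≤ Y := ((le_max_left _ _).trans (le_max_right _ _)).trans hY
  have g4 : Y₄ ≤ Y := ((le_max_right _ _).trans (le_max_right _ _)).trans hY
  have g5 := hY₄ Y g4
  obtain ⟨hY1, hL1, hp⟩ := hpair Y g3
  have hYr : (0 : ℝ) < Y := by exact_mod_cast hY1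
  set L : ℝ := Real.log Y with hL
  have hL0 : 0 < L := by linarith
  have hl0 : 0 ≤ Real.log L := Real.log_nonneg hL1
  have hHb := hHl Y g1
  set bad : Finset (ℕ × ℕ) := (Icc 1 Y ×ˢ Icc 1 Y).filter (fun q : ℕ × ℕ => q.1 ≠ q.2 ∧
    ¬ ∀ t : ZMod (primorial w),
    |Real.log Y ^ 2 * dn Y (primorial w) t (fun s => (q.1 + s).Prime ∧ (q.2 + s).Prime) -
      bta (primorial w) ^ 2 * un ((q.1 : ZMod (primorial w)) + t) *
        un ((q.2 : ZMod (primorial w)) + t) * sg w (z Y) (Nat.dist q.1 q.2)| ≤ ε) with hbd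
  have hK0 : (0 : ℝ) ≤ K := Nat.cast_nonneg _
  have main := sum_pairs_le Y
    (fun A => K * d2 (Icc 1 Y) (ta (primorial w)) Rp A)
    (fun h => 4 * (rr h * |sg w (z Y) h - 1|) + 4 * ε + 3 * κ * rr h ^ 2)
    (3 / κ + 2 * C₂ * Real.log L) bad
    (fun h => by
      have := rr_nonneg h
      positivity) (by positivity) (fun A => mul_nonneg hK0 (d2_nonneg _ _ _ _))
    (fun n hn m hm hnm => by
      obtain ⟨p1, p2⟩ := hp n hn m hm hnm
      have hR0 := rr_nonneg (Nat.dist n m)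
      have hd0 := d2_nonneg (Icc 1 Y) (ta (primorial w)) Rp ({n, m} : Finset ℕ)
      have hdc := d2_le_c2 (Icc 1 Y) (ta (primorial w)) Rp ({n, m} : Finset ℕ)
      have hc0 := c2_nonneg (Icc 1 Y) (ta (primorial w)) Rp ({n, m} : Finset ℕ)
      have hcs := c2_split (Icc 1 Y) (ta (primorial w)) Rp ({n, m} : Finset ℕ)
      by_cases hq : (n, m) ∈ bad
      · rw [if_pos hq]
        have b1 := hbad Y g2 w n hn m hm hnm
        have b2 : L ^ 2 * c2 (Icc 1 Y) (ta (primorial w)) Rp {n, m} ≤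
            C₂ * Real.log L + 3 * rr (Nat.dist n m) := by
          rw [hcs, mul_add]
          exact add_le_add b1 p1
        have b3 := mul_le_two hK hc0 b2
        have b4 : K * d2 (Icc 1 Y) (ta (primorial w)) Rp {n, m} ≤
            K * c2 (Icc 1 Y) (ta (primorial w)) Rp {n, m} := mul_le_mul_of_nonneg_left hdc hK0
        have b5 : 6 * rr (Nat.dist n m) ≤ 3 * κ * rr (Nat.dist n m) ^ 2 + 3 / κ := by
          have b6 : 3 * κ * rr (Nat.dist n m) ^ 2 + 3 / κ - 6 * rr (Nat.dist n m) =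
              3 / κ * (κ * rr (Nat.dist n m) - 1) ^ 2 := by
            field_simp
            ring
          have b7 : 0 ≤ 3 / κ * (κ * rr (Nat.dist n m) - 1) ^ 2 := by positivity
          linarith
        have b8 : 0 ≤ 4 * (rr (Nat.dist n m) * |sg w (z Y) (Nat.dist n m) - 1|) := by positivity
        linarith
      · rw [if_neg hq, add_zero]
        have b0 : ∀ t : ZMod (primorial w),
            |Real.log Y ^ 2 * dn Y (primorial w) t (fun s => (n + s).Prime ∧ (m + s).Prime) -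
            bta (primorial w) ^ 2 * un ((n : ZMod (primorial w)) + t) *
            un ((m : ZMod (primorial w)) + t) * sg w (z Y) (Nat.dist n m)| ≤ ε := by
          by_contra hcon
          exact hq (mem_filter.2 ⟨mem_product.2 ⟨hn, hm⟩, hnm, hcon⟩)
        obtain ⟨-, b1⟩ := p2 (z Y) ε hε0.le hε1 b0
        have b3 := mul_le_two hK hd0 b1
        have b8 : 0 ≤ 3 * κ * rr (Nat.dist n m) ^ 2 := by positivity
        linarith)
  refine main.trans ?_
  have e1 : ∑ h ∈ Icc 1 Y, (4 * (rr h * |sg w (z Y) h - 1|) + 4 * ε + 3 * κ * rr h ^ 2) ≤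
      4 * (η / 64 * Y) + 4 * ε * Y + 6 * κ * (E * Y) := by
    have f1 : ∑ h ∈ Icc 1 Y, rr h * |sg w (z Y) h - 1| ≤ η / 64 * Y := hw₀ w (z Y) Y hw (hz Y)
    have f2 : ∑ h ∈ Icc 1 Y, rr h ^ 2 ≤ 2 * (E * Y) := by
      have f3 : ∑ h ∈ Icc 1 Y, rr h ^ 2 ≤ ∑ h ∈ Icc 1 Y, 2 * Real.exp (1 * rr h) := by
        refine Finset.sum_le_sum fun h _ => ?_
        have := Real.quadratic_le_exp_of_nonneg (rr_nonneg h)
        rw [one_mul]
        linarith [rr_nonneg h]
      have f4 : ∑ h ∈ Icc 1 Y, Real.exp (1 * rr h) ≤ E₀ * Y := hE₀ Y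
      rw [← Finset.mul_sum] at f3
      have f5 : E₀ * (Y : ℝ) ≤ E * Y := mul_le_mul_of_nonneg_right (le_max_left _ _) hYr.le
      linarith
    rw [Finset.sum_add_distrib, Finset.sum_add_distrib, ← Finset.mul_sum, Finset.sum_const,
      Nat.card_Icc, Nat.add_sub_cancel, nsmul_eq_mul, ← Finset.mul_sum]
    have f6 : 3 * κ * ∑ h ∈ Icc 1 Y, rr h ^ 2 ≤ 3 * κ * (2 * (E * Y)) :=
      mul_le_mul_of_nonneg_left f2 (by positivity)
    linarith
  have e2 : (3 / κ + 2 * C₂ * Real.log L) * (bad.card : ℝ) ≤ η / 4 * (Y : ℝ) ^ 2 := by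
    have e3 : (3 / κ + 2 * C₂ * Real.log L) / L ≤ η / 4 := by
      have e4 : (3 / κ + 2 * C₂ * Real.log L) / L =
          3 / κ * (1 / L) + 2 * C₂ * (Real.log L / L) := by
        field_simp
      rw [e4]
      exact g5.le
    calc (3 / κ + 2 * C₂ * Real.log L) * (bad.card : ℝ) ≤
          (3 / κ + 2 * C₂ * Real.log L) * ((Y : ℝ) ^ 2 / L ^ 1) :=
          mul_le_mul_of_nonneg_left hHb (by positivity)
      _ = (3 / κ + 2 * C₂ * Real.log L) / L * (Y : ℝ) ^ 2 := by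
          rw [pow_one]
          field_simp
      _ ≤ η / 4 * (Y : ℝ) ^ 2 := mul_le_mul_of_nonneg_right e3 (by positivity)
  have e5 : 2 * (Y : ℝ) * ∑ h ∈ Icc 1 Y, (4 * (rr h * |sg w (z Y) h - 1|) + 4 * ε +
      3 * κ * rr h ^ 2) ≤ 2 * Y * (4 * (η / 64 * Y) + 4 * ε * Y + 6 * κ * (E * Y)) :=
    mul_le_mul_of_nonneg_left e1 (by positivity)
  have e6 : 2 * (Y : ℝ) * (4 * (η / 64 * Y) + 4 * ε * Y + 6 * κ * (E * Y)) =
      (8 * (η / 64) + 8 * ε + 12 * (κ * E)) * (Y : ℝ) ^ 2 := by ring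
  rw [e6, hκE] at e5
  have e7 : (8 * (η / 64) + 8 * ε + η / 8) * (Y : ℝ) ^ 2 ≤ (3 * (η / 8)) * (Y : ℝ) ^ 2 :=
    mul_le_mul_of_nonneg_right (by linarith) (by positivity)
  have e8 : 0 ≤ η * (Y : ℝ) ^ 2 := by positivity
  linarith

end Pool.Agent.Q87.GC
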